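import Pool.Agent.H51.K1.Def
import Pool.Agent.H51.SN.Kum
import Pool.Agent.H38.TD.LocT
import Pool.Agent.H63.BU.UOrd

/-!
# [H51 K1 Tam] The tame symbol

`tam`: there is `τ` in the inertia group with Kummer symbol `kq ℓ ζ (uf v) τ = 1` (`v` not above `ℓ`). PROOF: H38/TD/LocT (`∃ τ ∈ inertia,
τ B ≠ B` for a root `B` of an element of order prime to `ℓ` at `v`, `ord_uf`), so the symbol is a nonzero `a`; take a power of `τ`
(`kq_mul`, `ZMod ℓ` is a field; everything in `K` is fixed).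
`tx_ex`: some `τ` has value `x`. `tx_zp`: the values are in `zpowers x`. `tx_cj`: `tx` and conjugation (`orderOf` is the same).
`tx_inj`: if `tx m ζ v x = tx m ζ v y` on inertia then `x = y`: both images are the groups `zpowers x`, `zpowers y`, so the orders are
equal, and then the same `τ` gives `x` and `y`.
-/

set_option autoImplicit false

open scoped NumberField Classical
open IsDedekindDomain H38.ML

noncomputable section

namespace H51.K1

open H63.MA H38.BB H38.BG H77.PC3 H51.SN H57.SL H36.QA H88.LH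

variable {K : IntermediateField ℚ QBar} [NumberField K]

theorem tam (Q : DP K QBar) {ℓ : ℕ} (hℓ : ℓ.Prime) {ζ : K} (hζ : IsPrimitiveRoot ζ ℓ) (v : Pl K)
    (hv : ((ℓ : ℕ) : 𝓞 K) ∉ v.asIdeal) :
    ∃ τ ∈ (Q.P v).inertia Gal(QBar/K), kq ℓ ζ ((uf v : K) : QBar) τ = 1 := by
  obtain ⟨L, hL⟩ := H63.BU.uord_at QBar hℓ hζ (v := v) hv (ord_uf v) (Q.P v) (Q.prime v) (Q.under v)
  refine ⟨L.t, ?_, ?_⟩
  · rw [← hL]
    exact L.ht
  · have h0 : ((uf v : K) : QBar) ≠ 0 := by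
      intro h
      exact (uf v).ne_zero (Subtype.ext h)
    have h1 : L.t ((uf v : K) : QBar) = ((uf v : K) : QBar) := L.t.commutes (uf v : K)
    have h2 := kq_eq_nat hℓ hζ h0 h1 1 (B := L.w) L.hw (by rw [L.act, pow_one])
    rw [h2, Nat.cast_one]

variable {G : Type} [Group G] [Finite G] {m : ℕ} {ζ : K}

omit [Finite G] in
private theorem tx_one (Q : DP K QBar) (hζ : IsPrimitiveRoot ζ m) (v : Pl K)
    (hv : ((m : ℕ) : 𝓞 K) ∉ v.asIdeal) {ℓ : ℕ} (hℓ : ℓ.Prime) (hℓm : ℓ ∣ m) :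
    ∃ τ ∈ (Q.P v).inertia Gal(QBar/K), ∀ x : G, orderOf x = ℓ → tx m ζ v x τ = x := by
  have hm : 0 < m := by
    rcases Nat.eq_zero_or_pos m with h | h
    · exfalso
      apply hv
      rw [h, Nat.cast_zero]
      exact v.asIdeal.zero_mem
    · exact h
  obtain ⟨k, hk⟩ := hℓm
  have h1 : IsPrimitiveRoot (ζ ^ (m / ℓ)) ℓ := by
    refine hζ.pow hm ?_
    rw [hk, Nat.mul_div_cancel_left _ hℓ.pos, mul_comm]
  have h2 : ((ℓ : ℕ) : 𝓞 K) ∉ v.asIdeal := by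
    intro h
    apply hv
    rw [hk, Nat.cast_mul]
    exact v.asIdeal.mul_mem_right _ h
  obtain ⟨τ, hτ, h3⟩ := tam Q hℓ h1 v h2
  refine ⟨τ, hτ, fun x hx => ?_⟩
  have : Fact (1 < ℓ) := ⟨hℓ.one_lt⟩
  unfold tx
  rw [hx, h3, ZMod.val_one, pow_one]

theorem tx_ex (Q : DP K QBar) (hζ : IsPrimitiveRoot ζ m) (hG : Nat.card G ∣ m) (v : Pl K)
    (hv : ((m : ℕ) : 𝓞 K) ∉ v.asIdeal) (x : G) (hx : (orderOf x).Prime) :
    ∃ τ ∈ (Q.P v).inertia Gal(QBar/K), tx m ζ v x τ = x := by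
  obtain ⟨τ, hτ, h⟩ := tx_one (G := G) Q hζ v hv hx ((orderOf_dvd_natCard x).trans hG)
  exact ⟨τ, hτ, h x rfl⟩

omit [Finite G] in
theorem tx_zp (v : Pl K) (x : G) (τ : Gal(QBar/K)) : tx m ζ v x τ ∈ Subgroup.zpowers x :=
  Subgroup.npow_mem_zpowers _ _

omit [Finite G] in
theorem tx_cj (v : Pl K) (x g : G) (τ : Gal(QBar/K)) :
    tx m ζ v (g * x * g⁻¹) τ = g * tx m ζ v x τ * g⁻¹ := by
  have h : orderOf (g * x * g⁻¹) = orderOf x := by
    rw [← MulAut.conj_apply, MulEquiv.orderOf_eq]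
  unfold tx
  rw [h, conj_pow]

theorem tx_inj (Q : DP K QBar) (hζ : IsPrimitiveRoot ζ m) (hG : Nat.card G ∣ m) (v : Pl K)
    (hv : ((m : ℕ) : 𝓞 K) ∉ v.asIdeal) (x y : G) (hx : (orderOf x).Prime) (hy : (orderOf y).Prime)
    (h : ∀ τ ∈ (Q.P v).inertia Gal(QBar/K), tx m ζ v x τ = tx m ζ v y τ) : x = y := by
  obtain ⟨τ, hτ, h1⟩ := tx_one (G := G) Q hζ v hv hx ((orderOf_dvd_natCard x).trans hG)
  have h2 : x ∈ Subgroup.zpowers y := by
    have h3 := h τ hτ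
    rw [h1 x rfl] at h3
    rw [h3]
    exact tx_zp v y τ
  have h4 : orderOf x ∣ orderOf y := orderOf_dvd_of_mem_zpowers h2
  have h5 : orderOf y = orderOf x := ((Nat.prime_dvd_prime_iff_eq hx hy).1 h4).symm
  have h6 := h τ hτ
  rwa [h1 x rfl, h1 y h5] at h6

end H51.K1
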