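import Mathlib

/-!
# [H51 K1 Cnt] The number of boxes (real analysis, no fields)

`C ≥ 2` the ratio of the boxes, `k` parameters `X_o = C ^ (i o)` in `[Z, Z ^ 2]` and `n ≥ 1` parameters `F_j = (C ^ 3) ^ (e j)` in `[Z ^ a, Z ^ b]`
with `Y / C1 ≤ C ^ k ∏ X_o * (C ^ 3) ^ n ∏ F_j ≤ Y`, where `Z = Y ^ (1 / b)`, `b = 2 k + 2 a n + 1`. There are at least `c (log Y) ^ (k + n - 1)` of them.
PROOF. `i o` with `Z ≤ C ^ (i o) ≤ Z ^ 2`: at least `log Z / log C - 1 ≥ c log Z` choices; for `j ≠ 0` `e j` with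
`Z ^ a ≤ (C ^ 3) ^ (e j) ≤ Z ^ (2 a)`: at least `a log Z / (3 log C) - 1` choices. `e 0` is the largest integer with
`C ^ k ∏ X_o * (C ^ 3) ^ n ∏ F_j ≤ Y`: `F_0 > Y / (C ^ (k + 3 n + 3) ∏ X_o ∏_{j ≠ 0} F_j) ≥ Z ^ (b - 2 k - 2 a (n - 1)) / C ^ (k + 3 n + 3)
= Z ^ (2 a + 1) / C ^ (k + 3 n + 3) ≥ Z ^ a` and `F_0 ≤ Y = Z ^ b`. `C1 := C ^ 3`.
The statement: a finite set `B` of pairs `(i, e)`.
-/

set_option autoImplicit false

noncomputable section

namespace H51.K1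

private theorem cnt_card (u v : ℝ) (hu : 0 ≤ u) :
    v - u - 1 ≤ ((Finset.Icc ⌈u⌉₊ ⌊v⌋₊).card : ℝ) := by
  rw [Nat.card_Icc]
  have h1 : ((⌊v⌋₊ + 1 : ℕ) : ℝ) ≤ ((⌊v⌋₊ + 1 - ⌈u⌉₊ : ℕ) : ℝ) + (⌈u⌉₊ : ℝ) := by
    exact_mod_cast (le_tsub_add : ⌊v⌋₊ + 1 ≤ ⌊v⌋₊ + 1 - ⌈u⌉₊ + ⌈u⌉₊)
  have h2 : v < (⌊v⌋₊ : ℝ) + 1 := Nat.lt_floor_add_one v
  have h3 : (⌈u⌉₊ : ℝ) < u + 1 := Nat.ceil_lt_add_one hu
  push_cast at h1
  linarith

private theorem pow_exp {C : ℝ} (hC : 0 < C) (m : ℕ) : C ^ m = Real.exp (m * Real.log C) := by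
  rw [← Real.log_pow, Real.exp_log (pow_pos hC m)]

private theorem prod_eq {ι : Type} [Fintype ι] {n : ℕ} (C : ℝ) (i : ι → ℕ) (e0 : ℕ) (e : Fin n → ℕ) :
    (∏ o, C * C ^ (i o)) * (∏ j, C ^ 3 * (C ^ 3) ^ ((Fin.cons e0 e : Fin (n + 1) → ℕ) j)) =
      C ^ ((∑ o, (1 + i o)) + 3 * (∑ j, (1 + e j)) + 3 * (1 + e0)) := by
  rw [Fin.prod_univ_succ]
  simp only [Fin.cons_zero, Fin.cons_succ]
  have h1 : ∏ o, C * C ^ (i o) = C ^ (∑ o, (1 + i o)) := by
    rw [← Finset.prod_pow_eq_pow_sum]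
    refine Finset.prod_congr rfl fun o _ => ?_
    rw [pow_add, pow_one]
  have h2 : ∏ j, C ^ 3 * (C ^ 3) ^ (e j) = C ^ (3 * ∑ j, (1 + e j)) := by
    rw [pow_mul, ← Finset.prod_pow_eq_pow_sum]
    refine Finset.prod_congr rfl fun j _ => ?_
    rw [pow_add, pow_one]
  have h3 : C ^ 3 * (C ^ 3) ^ e0 = C ^ (3 * (1 + e0)) := by
    rw [pow_mul, pow_add, pow_one]
  rw [h1, h2, h3, pow_add, pow_add]
  ring

theorem boxes (ι : Type) [Fintype ι] (n : ℕ) (C a : ℝ) (hC : 2 ≤ C) (ha : 0 < a) :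
    ∃ c Y₀ : ℝ, 0 < c ∧ 1 ≤ Y₀ ∧ ∀ (b : ℝ), b = 2 * Fintype.card ι + 2 * a * (n + 1) + 1 →
      ∀ Y : ℝ, Y₀ ≤ Y → ∃ B : Finset ((ι → ℕ) × (Fin (n + 1) → ℕ)),
        c * Real.log Y ^ (Fintype.card ι + n) ≤ (B.card : ℝ) ∧
        ∀ x ∈ B, (∀ o, Y ^ (1 / b) ≤ C ^ (x.1 o)) ∧ (∀ o, C ^ (x.1 o) ≤ (Y ^ (1 / b)) ^ 2) ∧
          (∀ j, (Y ^ (1 / b)) ^ a ≤ (C ^ 3) ^ (x.2 j)) ∧ (∀ j, (C ^ 3) ^ (x.2 j) ≤ (Y ^ (1 / b)) ^ b) ∧
          (∏ o, C * C ^ (x.1 o)) * (∏ j, C ^ 3 * (C ^ 3) ^ (x.2 j)) ≤ Y ∧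
          Y / C ^ 3 ≤ (∏ o, C * C ^ (x.1 o)) * (∏ j, C ^ 3 * (C ^ 3) ^ (x.2 j)) := by
  classical
  obtain ⟨k, hk⟩ : ∃ k : ℕ, k = Fintype.card ι := ⟨_, rfl⟩
  obtain ⟨b, hb⟩ : ∃ b : ℝ, b = 2 * (k : ℝ) + 2 * a * (n + 1) + 1 := ⟨_, rfl⟩
  obtain ⟨l, hl⟩ : ∃ l : ℝ, l = Real.log C := ⟨_, rfl⟩
  have hCpos : 0 < C := by linarith
  have hC1 : 1 < C := by linarith
  have hl0 : 0 < l := by rw [hl]; exact Real.log_pos hC1
  have hk0 : (0 : ℝ) ≤ k := Nat.cast_nonneg k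
  have hn0 : (0 : ℝ) ≤ n := Nat.cast_nonneg n
  have hb1 : 1 ≤ b := by rw [hb]; nlinarith [mul_nonneg ha.le hn0]
  have hb0 : 0 < b := by linarith
  have hb2a : 2 * a ≤ b := by rw [hb]; nlinarith [mul_nonneg ha.le hn0]
  refine ⟨(1 / (2 * b * l)) ^ k * (a / (6 * b * l)) ^ n,
    Real.exp (b * ((k + 3 * n + 6) * l + 2 * l + 6 * l / a)), by positivity,
    Real.one_le_exp (by positivity), ?_⟩
  intro b' hb' Y hY
  have hbb : b' = b := by rw [hb', hb, hk]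
  subst hbb
  rw [← hk]
  have hYpos : 0 < Y := lt_of_lt_of_le (Real.exp_pos _) hY
  obtain ⟨z, hz⟩ : ∃ z : ℝ, z = Real.log Y / b' := ⟨_, rfl⟩
  have hlogY : Real.log Y = b' * z := by rw [hz]; field_simp
  have hzK : (k + 3 * n + 6) * l + 2 * l + 6 * l / a ≤ z := by
    have h1 := (Real.le_log_iff_exp_le hYpos).2 hY
    rw [hlogY] at h1
    exact le_of_mul_le_mul_left h1 hb0
  have h6a : 0 < 6 * l / a := by positivity
  have hK0 : 0 ≤ (k + 3 * n + 6) * l := by positivity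
  have hz0 : 0 < z := by linarith
  have hZ : Y ^ (1 / b') = Real.exp z := by
    rw [Real.rpow_def_of_pos hYpos, hz]
    congr 1
    ring
  -- the ranges
  obtain ⟨S1, hS1⟩ : ∃ S1 : Finset ℕ, S1 = Finset.Icc ⌈z / l⌉₊ ⌊2 * z / l⌋₊ := ⟨_, rfl⟩
  obtain ⟨S2, hS2⟩ : ∃ S2 : Finset ℕ, S2 = Finset.Icc ⌈a * z / (3 * l)⌉₊ ⌊2 * a * z / (3 * l)⌋₊ := ⟨_, rfl⟩
  have hS1c : z / (2 * l) ≤ (S1.card : ℝ) := by
    have h1 := cnt_card (z / l) (2 * z / l) (by positivity)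
    rw [← hS1] at h1
    have h2 : z / (2 * l) + 1 ≤ 2 * z / l - z / l := by
      have h3 : 2 * z / l - z / l = z / (2 * l) + z / (2 * l) := by field_simp; ring
      rw [h3]
      have h4 : 1 ≤ z / (2 * l) := by
        rw [le_div_iff₀ (by positivity)]
        linarith
      linarith
    linarith
  have hS2c : a * z / (6 * l) ≤ (S2.card : ℝ) := by
    have h1 := cnt_card (a * z / (3 * l)) (2 * a * z / (3 * l)) (by positivity)
    rw [← hS2] at h1
    have h2 : a * z / (6 * l) + 1 ≤ 2 * a * z / (3 * l) - a * z / (3 * l) := by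
      have h3 : 2 * a * z / (3 * l) - a * z / (3 * l) = a * z / (6 * l) + a * z / (6 * l) := by
        field_simp
        ring
      rw [h3]
      have h4 : 1 ≤ a * z / (6 * l) := by
        rw [le_div_iff₀ (by positivity)]
        have h5 : 6 * l / a ≤ z := by linarith
        rw [div_le_iff₀ ha] at h5
        linarith
      linarith
    linarith
  have hS1m : ∀ m ∈ S1, z ≤ m * l ∧ (m : ℝ) * l ≤ 2 * z := by
    intro m hm
    rw [hS1, Finset.mem_Icc] at hm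
    have h1 : z / l ≤ m := (Nat.ceil_le).1 hm.1
    have h2 : (m : ℝ) ≤ 2 * z / l := (Nat.le_floor_iff (by positivity)).1 hm.2
    rw [div_le_iff₀ hl0] at h1
    rw [le_div_iff₀ hl0] at h2
    exact ⟨h1, h2⟩
  have hS2m : ∀ m ∈ S2, a * z ≤ m * (3 * l) ∧ (m : ℝ) * (3 * l) ≤ 2 * a * z := by
    intro m hm
    rw [hS2, Finset.mem_Icc] at hm
    have h1 : a * z / (3 * l) ≤ m := (Nat.ceil_le).1 hm.1
    have h2 : (m : ℝ) ≤ 2 * a * z / (3 * l) := (Nat.le_floor_iff (by positivity)).1 hm.2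
    rw [div_le_iff₀ (by positivity)] at h1
    rw [le_div_iff₀ (by positivity)] at h2
    exact ⟨h1, h2⟩
  obtain ⟨M, hM⟩ : ∃ M : ℕ, M = ⌊Real.log Y / l⌋₊ := ⟨_, rfl⟩
  have hlogY0 : 0 ≤ Real.log Y := by rw [hlogY]; positivity
  have hM1 : (M : ℝ) * l ≤ Real.log Y := by
    have h1 : (M : ℝ) ≤ Real.log Y / l := by
      rw [hM]
      exact Nat.floor_le (by positivity)
    rwa [le_div_iff₀ hl0] at h1
  have hM2 : Real.log Y < (M + 1) * l := by
    have h1 : Real.log Y / l < M + 1 := by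
      rw [hM]
      exact Nat.lt_floor_add_one _
    rwa [div_lt_iff₀ hl0] at h1
  -- the last parameter
  obtain ⟨N', hN'⟩ : ∃ N' : (ι → ℕ) → (Fin n → ℕ) → ℕ, ∀ i e, N' i e = (∑ o, (1 + i o)) + 3 * (∑ j, (1 + e j)) :=
    ⟨fun i e => (∑ o, (1 + i o)) + 3 * (∑ j, (1 + e j)), fun _ _ => rfl⟩
  obtain ⟨f, hf⟩ : ∃ f : (ι → ℕ) × (Fin n → ℕ) → (ι → ℕ) × (Fin (n + 1) → ℕ), ∀ x,
      f x = (x.1, Fin.cons ((M - N' x.1 x.2) / 3 - 1) x.2) :=
    ⟨fun x => (x.1, Fin.cons ((M - N' x.1 x.2) / 3 - 1) x.2), fun _ => rfl⟩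
  have hfinj : Function.Injective f := by
    intro x y hxy
    rw [hf, hf, Prod.mk.injEq] at hxy
    have h2 := Fin.cons_injective2 hxy.2
    exact Prod.ext hxy.1 h2.2
  obtain ⟨B0, hB0⟩ : ∃ B0 : Finset ((ι → ℕ) × (Fin n → ℕ)),
      B0 = (Fintype.piFinset fun _ : ι => S1) ×ˢ (Fintype.piFinset fun _ : Fin n => S2) := ⟨_, rfl⟩
  refine ⟨B0.image f, ?_, ?_⟩
  · rw [Finset.card_image_of_injective _ hfinj, hB0, Finset.card_product, Fintype.card_piFinset,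
      Fintype.card_piFinset, Finset.prod_const, Finset.prod_const, Finset.card_univ, Finset.card_univ,
      Fintype.card_fin, ← hk, hlogY]
    push_cast
    have e1 : (1 / (2 * b' * l)) ^ k * (a / (6 * b' * l)) ^ n * (b' * z) ^ (k + n)
        = (z / (2 * l)) ^ k * (a * z / (6 * l)) ^ n := by
      rw [pow_add]
      calc (1 / (2 * b' * l)) ^ k * (a / (6 * b' * l)) ^ n * ((b' * z) ^ k * (b' * z) ^ n)
          = ((1 / (2 * b' * l)) * (b' * z)) ^ k * ((a / (6 * b' * l)) * (b' * z)) ^ n := by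
            rw [mul_pow, mul_pow]
            ring
        _ = (z / (2 * l)) ^ k * (a * z / (6 * l)) ^ n := by
            congr 2
            · field_simp
            · field_simp
    rw [e1]
    exact mul_le_mul (pow_le_pow_left₀ (by positivity) hS1c k) (pow_le_pow_left₀ (by positivity) hS2c n)
      (by positivity) (pow_nonneg (Nat.cast_nonneg _) _)
  · intro x hx
    obtain ⟨⟨i, e⟩, hy, rfl⟩ := Finset.mem_image.1 hx
    rw [hB0, Finset.mem_product, Fintype.mem_piFinset, Fintype.mem_piFinset] at hy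
    obtain ⟨hi, he⟩ := hy
    simp only at hi he
    rw [hf]
    simp only
    obtain ⟨e0, he0⟩ : ∃ e0 : ℕ, e0 = (M - N' i e) / 3 - 1 := ⟨_, rfl⟩
    rw [← he0, prod_eq, ← hN']
    -- bound for `N'`
    have hNl : (N' i e : ℝ) * l ≤ k * (l + 2 * z) + n * (3 * l + 2 * a * z) := by
      rw [hN']
      push_cast
      rw [add_mul, Finset.sum_mul, mul_assoc, Finset.sum_mul, Finset.mul_sum]
      have h1 : ∑ o : ι, (1 + (i o : ℝ)) * l ≤ ∑ _o : ι, (l + 2 * z) := by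
        refine Finset.sum_le_sum fun o _ => ?_
        have := (hS1m (i o) (hi o)).2
        linarith
      have h2 : ∑ j : Fin n, 3 * ((1 + (e j : ℝ)) * l) ≤ ∑ _j : Fin n, (3 * l + 2 * a * z) := by
        refine Finset.sum_le_sum fun j _ => ?_
        have := (hS2m (e j) (he j)).2
        linarith
      rw [Finset.sum_const, Finset.card_univ, ← hk, nsmul_eq_mul] at h1
      rw [Finset.sum_const, Finset.card_univ, Fintype.card_fin, nsmul_eq_mul] at h2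
      linarith
    have hMN : (N' i e : ℝ) * l + a * z + 5 * l < M * l := by
      have h1 : (N' i e : ℝ) * l ≤ (k + 3 * n) * l + (2 * k + 2 * a * n) * z := by linarith
      have h2 : Real.log Y = (2 * k + 2 * a * n) * z + (2 * a + 1) * z := by
        rw [hlogY, hb]
        ring
      have h3 : (k + 3 * n + 6) * l ≤ z := by linarith
      have h4 : 0 < a * z := by positivity
      linarith
    have hMN2 : N' i e + 5 < M := by
      have h4 : 0 < a * z := by positivity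
      have h1 : ((N' i e : ℝ) + 5) * l < M * l := by linarith
      have h2 : ((N' i e : ℝ) + 5) < M := lt_of_mul_lt_mul_right h1 hl0.le
      exact_mod_cast h2
    have hE1 : N' i e + 3 * (1 + e0) ≤ M := by omega
    have hE2 : M + 1 ≤ N' i e + 3 * (1 + e0) + 3 := by omega
    have hE3 : M ≤ N' i e + 3 * e0 + 5 := by omega
    have hYe : Y = Real.exp (Real.log Y) := (Real.exp_log hYpos).symm
    have hCM : C ^ M ≤ Y := by
      rw [pow_exp hCpos, ← hl]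
      calc Real.exp (M * l) ≤ Real.exp (Real.log Y) := Real.exp_le_exp.2 hM1
        _ = Y := hYe.symm
    have hCM1 : Y ≤ C ^ (M + 1) := by
      rw [pow_exp hCpos, ← hl]
      calc Y = Real.exp (Real.log Y) := hYe
        _ ≤ Real.exp (((M + 1 : ℕ) : ℝ) * l) := Real.exp_le_exp.2 (by push_cast; linarith)
    have hZa : ∀ t : ℝ, (Y ^ (1 / b')) ^ t = Real.exp (z * t) := fun t => by rw [hZ, ← Real.exp_mul]
    have hYb : (Y ^ (1 / b')) ^ b' = Y := by
      rw [hZa]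
      calc Real.exp (z * b') = Real.exp (Real.log Y) := by rw [hlogY, mul_comm]
        _ = Y := hYe.symm
    have h3e : ∀ m : ℕ, (C ^ 3) ^ m = Real.exp (m * (3 * l)) := fun m => by
      rw [← pow_mul, pow_exp hCpos, ← hl]
      congr 1
      push_cast
      ring
    refine ⟨fun o => ?_, fun o => ?_, fun j => ?_, fun j => ?_, ?_, ?_⟩
    · rw [hZ, pow_exp hCpos, ← hl]
      exact Real.exp_le_exp.2 (hS1m (i o) (hi o)).1
    · rw [hZ, pow_exp hCpos, ← hl, ← Real.exp_nat_mul]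
      refine Real.exp_le_exp.2 ?_
      have := (hS1m (i o) (hi o)).2
      push_cast
      exact this
    · rw [hZa, h3e]
      refine Real.exp_le_exp.2 ?_
      refine Fin.cases ?_ (fun j => ?_) j
      · rw [Fin.cons_zero]
        have h1 : (M : ℝ) ≤ N' i e + 3 * e0 + 5 := by exact_mod_cast hE3
        have h2 := mul_le_mul_of_nonneg_right h1 hl0.le
        linarith
      · rw [Fin.cons_succ]
        have := (hS2m (e j) (he j)).1
        linarith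
    · rw [hYb]
      refine Fin.cases ?_ (fun j => ?_) j
      · rw [Fin.cons_zero, ← pow_mul]
        refine le_trans (pow_le_pow_right₀ hC1.le ?_) hCM
        omega
      · rw [Fin.cons_succ, h3e]
        have h1 := (hS2m (e j) (he j)).2
        calc Real.exp (e j * (3 * l)) ≤ Real.exp (Real.log Y) := by
              refine Real.exp_le_exp.2 ?_
              rw [hlogY]
              have h2 := mul_le_mul_of_nonneg_right hb2a hz0.le
              linarith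
          _ = Y := hYe.symm
    · exact (pow_le_pow_right₀ hC1.le hE1).trans hCM
    · rw [div_le_iff₀ (by positivity), ← pow_add]
      exact hCM1.trans (pow_le_pow_right₀ hC1.le hE2)

end H51.K1
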