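import Pool.Agent.H51.K1.Def
import Pool.Agent.H88.LH.Spx
import Pool.Agent.H38.BG.AKn
import Pool.Agent.H63.MC.CLkC

set_option autoImplicit false

open scoped NumberField Classical
open IsDedekindDomain H38.ML Pool.Agent.H36.RS

noncomputable section

namespace H51.K1

open H63.MA H38.BB H38.BG H77.PC3 H51.SN H57.SL H36.QA H88.LH

private theorem tc_i (K : IntermediateField ℚ QBar) [NumberField K] (i : K) (hi : i ^ 2 = -1) :
    NumberField.IsTotallyComplex K := by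
  refine ⟨fun w => ?_⟩
  rw [← NumberField.InfinitePlace.not_isReal_iff_isComplex]
  intro hw
  have h1 := congrArg (NumberField.InfinitePlace.embedding_of_isReal hw) hi
  rw [map_pow, map_neg, map_one] at h1
  nlinarith [sq_nonneg (NumberField.InfinitePlace.embedding_of_isReal hw i)]

private theorem prj {G : Type} [Group G] (T A : Subgroup G) (hT : T.Normal) (hTA : Subgroup.IsComplement' T A) :
    ∃ π : G →* A, Function.Surjective π := by
  have h2 : Subgroup.IsComplement' A T := hTA.symm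
  refine ⟨(h2.QuotientMulEquiv.toMonoidHom).comp (QuotientGroup.mk' T), ?_⟩
  rw [MonoidHom.coe_comp]
  exact h2.QuotientMulEquiv.surjective.comp (QuotientGroup.mk'_surjective T)

theorem k1core_of {G : Type} [Group G] [Finite G] (T A : Subgroup G) (hT : T.Normal)
    (hTA : Subgroup.IsComplement' T A) (C : Set G) (N : ℕ)
    (cor : ∀ (K : IntermediateField ℚ QBar) [NumberField K] (_ : NumberField.IsTotallyComplex K) (m : ℕ) (ζ : K)
      (_ : IsPrimitiveRoot ζ m) (_ : Nat.card G ∣ m) (_ : 0 < m) (Q : DP K QBar) (φ₀ : Gal(QBar/K) →* A) (_ : FT φ₀)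
      (_ : Function.Surjective φ₀) (S₁ S' : Finset (Pl K))
      (_ : ∀ v : Pl K, ((m : ℕ) : 𝓞 K) ∈ v.asIdeal → v ∈ S₁) (_ : ∀ v ∈ S', ((m : ℕ) : 𝓞 K) ∉ v.asIdeal)
      (_ : S' ⊆ S₁) (_ : ∀ v ∈ S', ∀ σ ∈ dec (K := K) (Q.P v), φ₀ σ = 1),
      ∃ (S₀ : Finset (Pl K)) (c Y₀ : ℝ), S₁ ⊆ S₀ ∧ 0 < c ∧ ∀ Y : ℝ, Y₀ ≤ Y → Bh C N Q S₀ S' c Y) :
    BASE C N := by
  obtain ⟨π, hπ⟩ := prj T A hT hTA
  obtain ⟨K₀, hK₀, hK⟩ := akn G
  refine ⟨K₀, hK₀, fun K hKN hKK s S₁ => ?_⟩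
  obtain ⟨⟨ρ, hρ, hρF⟩, ⟨z, hz⟩, i, hi⟩ := hK K hKK hKN
  have hm : Nat.card G ≠ 0 := Nat.card_pos.ne'
  have hfin := finite_above (K := K) hm
  have hφF : FT (π.comp ρ) := by
    obtain ⟨E, hE, hEk⟩ := hρF
    refine ⟨E, hE, fun σ hσ => ?_⟩
    have h1 := hEk hσ
    rw [MonoidHom.mem_ker] at h1 ⊢
    rw [MonoidHom.comp_apply, h1, map_one]
  have hφs : Function.Surjective (π.comp ρ) := by
    rw [MonoidHom.coe_comp]
    exact hπ.comp hρ
  obtain ⟨S', hc, hd, hS'⟩ := spx (π.comp ρ) hφF (S₁ ∪ hfin.toFinset) s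
  obtain ⟨Q⟩ := exists_DP K QBar
  have hS₁ : ∀ v : Pl K, ((Nat.card G : ℕ) : 𝓞 K) ∈ v.asIdeal → v ∈ (S₁ ∪ hfin.toFinset) ∪ S' := by
    intro v hv
    rw [Finset.mem_union, Finset.mem_union, Set.Finite.mem_toFinset]
    exact Or.inl (Or.inr hv)
  have hS'' : ∀ v ∈ S', ((Nat.card G : ℕ) : 𝓞 K) ∉ v.asIdeal := by
    intro v hv h1
    refine Finset.disjoint_left.1 hd hv ?_
    rw [Finset.mem_union, Set.Finite.mem_toFinset]
    exact Or.inr h1
  obtain ⟨S₀, c, Y₀, h1, h2, h3⟩ := cor K (tc_i K i hi) (Nat.card G) z hz dvd_rfl Nat.card_pos Q (π.comp ρ) hφF hφs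
    ((S₁ ∪ hfin.toFinset) ∪ S') S' hS₁ hS'' Finset.subset_union_right
    (fun v hv σ hσ => hS' v hv (Q.P v) (Q.prime v) (Q.under v) σ hσ)
  refine ⟨Q, S₀, S', c, Y₀, h2, ?_, ?_, ?_, hc, h3⟩
  · exact (Finset.subset_union_left.trans Finset.subset_union_left).trans h1
  · exact Finset.subset_union_right.trans h1
  · exact hd.mono_right (Finset.subset_union_left)

end H51.K1
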