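import Pool.Agent.H51.K1.Def
import Pool.Agent.H12.KF.TDf
import Pool.Agent.H63.MC.CDa

/-!
# [H51 K1 Br1] The orbit of `x` and Frobenius

`dec_zp`: `φ` of finite type and unramified at `v`: on the decomposition group the values of `φ` are powers of `φ (fr Q v)`. (Let `E` be the
fixed field of `ker φ`, finite Galois over `K`; the inertia group of `E` at the prime under `Q.P v` is the image of the inertia group in `Ω`,
so it is trivial and the decomposition group of `E` is generated by Frobenius. Look for an existing lemma first: `H57/SL`, `H38/BB`, `H12/KF/Cyc`,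
`H51/SN`, `H63/MA/G*.lean`; `fr_spec`.) `fr_dec`: `fr Q v` is in the decomposition group.
`orb_fix`: the elements of the orbit of `x` fixed by `b` and the fixed points of `b` on `A ⧸ H`, `H` the stabiliser
(`MulAction.orbitEquivQuotientStabilizer` or directly the bijection `a H ↦ a • x`).
`fo_fxp`: both together.
-/

set_option autoImplicit false

open scoped NumberField Classical
open IsDedekindDomain H38.ML

noncomputable section

namespace H51.K1

open H63.MA H38.BB H38.BG H77.PC3 H51.SN H57.SL H36.QA H88.LH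

section aux

open scoped Pointwise

variable {K : Type} [Field K] [NumberField K] {Ω : Type} [Field Ω] [Algebra K Ω] [IsAlgClosure K Ω]

/-- on a finite Galois extension an element of the decomposition group is a power of the Frobenius map (`H77.WE.dc_fr`) -/
private theorem dcfr {v : Pl K} (P : Ideal (𝓞 Ω)) (hP : P.IsPrime) (hv : P.under (𝓞 K) = v.asIdeal)
    (M : IntermediateField K Ω) [FiniteDimensional K M] [IsGalois K M] [NumberField M]
    (σ : Gal(Ω/K)) (hσ : σ ∈ dec (K := K) P) : ∃ k : ℕ, ∀ x : 𝓞 M,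
      σ • (algebraMap (𝓞 M) (𝓞 Ω) x) - (algebraMap (𝓞 M) (𝓞 Ω) x) ^ (nm v ^ k) ∈ P := by
  have hPM : (P.under (𝓞 M)).IsPrime := inferInstance
  have hMv : (P.under (𝓞 M)).under (𝓞 K) = v.asIdeal := by rw [Ideal.under_under, hv]
  have hlo : (P.under (𝓞 M)).LiesOver v.asIdeal := ⟨hMv.symm⟩
  have hvm : v.asIdeal.IsMaximal := v.isMaximal
  have hPm : (P.under (𝓞 M)).IsMaximal := Ideal.IsMaximal.of_liesOver_isMaximal _ v.asIdeal
  have hPb : P.under (𝓞 M) ≠ ⊥ := by
    intro h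
    rw [h] at hMv
    apply v.ne_bot
    rw [← hMv]
    exact Ideal.under_bot _ _
  let _ : Field (𝓞 K ⧸ v.asIdeal) := Ideal.Quotient.field _
  let _ : Field (𝓞 M ⧸ P.under (𝓞 M)) := Ideal.Quotient.field _
  have hfin : Finite (𝓞 K ⧸ v.asIdeal) := Ideal.finiteQuotientOfFreeOfNeBot _ v.ne_bot
  let _ : Fintype (𝓞 K ⧸ v.asIdeal) := Fintype.ofFinite _
  have hfin2 : Finite (𝓞 M ⧸ P.under (𝓞 M)) := Ideal.finiteQuotientOfFreeOfNeBot _ hPb
  set δ : Gal(M/K) := AlgEquiv.restrictNormal σ M with hδ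
  have hδσ : ∀ x : 𝓞 M, algebraMap (𝓞 M) (𝓞 Ω) (δ • x) = σ • (algebraMap (𝓞 M) (𝓞 Ω) x) := by
    intro x
    apply NumberField.RingOfIntegers.ext
    exact AlgEquiv.restrictNormal_commutes σ M (x : M)
  have hst : δ ∈ MulAction.stabilizer Gal(M/K) (P.under (𝓞 M)) := by
    rw [MulAction.mem_stabilizer_iff]
    ext x
    rw [Ideal.mem_pointwise_smul_iff_inv_smul_mem, Ideal.mem_comap, Ideal.mem_comap]
    have h1 : algebraMap (𝓞 M) (𝓞 Ω) x = σ • (algebraMap (𝓞 M) (𝓞 Ω) (δ⁻¹ • x)) := by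
      rw [← hδσ, smul_inv_smul]
    rw [h1]
    exact (hσ _).symm
  obtain ⟨⟨k, hk0⟩, hk⟩ := (FiniteField.bijective_frobeniusAlgEquivOfAlgebraic_pow
    (𝓞 K ⧸ v.asIdeal) (𝓞 M ⧸ P.under (𝓞 M))).2
      (Ideal.Quotient.stabilizerHom (P.under (𝓞 M)) v.asIdeal Gal(M/K) ⟨δ, hst⟩)
  refine ⟨k, fun x => ?_⟩
  have h1 := DFunLike.congr_fun hk (Ideal.Quotient.mk (P.under (𝓞 M)) x)
  have h2 : Fintype.card (𝓞 K ⧸ v.asIdeal) = nm v := by
    rw [← symb_card v, Nat.card_eq_fintype_card]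
  have h3 : ∀ (n : ℕ) (y : 𝓞 M ⧸ P.under (𝓞 M)),
      ((FiniteField.frobeniusAlgEquivOfAlgebraic (𝓞 K ⧸ v.asIdeal) (𝓞 M ⧸ P.under (𝓞 M))) ^ n) y =
        y ^ (nm v ^ n) := by
    intro n
    induction n with
    | zero =>
      intro y
      rw [pow_zero, pow_zero, pow_one]
      rfl
    | succ n ih =>
      intro y
      rw [pow_succ, AlgEquiv.mul_apply, ih]
      have h4 : (FiniteField.frobeniusAlgEquivOfAlgebraic (𝓞 K ⧸ v.asIdeal)
          (𝓞 M ⧸ P.under (𝓞 M))) y = y ^ nm v := by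
        rw [← h2]
        rfl
      rw [h4, ← pow_mul, ← pow_succ']
  have h5 : (Ideal.Quotient.mk (P.under (𝓞 M)) x) ^ (nm v ^ k) =
      Ideal.Quotient.mk (P.under (𝓞 M)) (δ • x) := by
    rw [← h3 k]
    exact h1
  rw [← map_pow, Ideal.Quotient.eq] at h5
  have h6 : algebraMap (𝓞 M) (𝓞 Ω) (x ^ (nm v ^ k) - δ • x) ∈ P := h5
  rw [map_sub, map_pow, hδσ] at h6
  rw [← neg_sub]
  exact P.neg_mem h6

/-- the image of the decomposition group of an unramified prime -/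
private theorem dcgen {v : Pl K} (P : Ideal (𝓞 Ω)) (hP : P.IsPrime) (hv : P.under (𝓞 K) = v.asIdeal)
    {F : Gal(Ω/K)} (hF : ∀ x : 𝓞 Ω, F • x - x ^ nm v ∈ P)
    {H : Type} [Group H] (φ : Gal(Ω/K) →* H) (hφ : H38.ML.FT φ)
    (hu : ∀ τ ∈ P.inertia Gal(Ω/K), φ τ = 1) (σ : Gal(Ω/K)) (hσ : σ ∈ dec (K := K) P) :
    ∃ k : ℕ, φ σ = φ F ^ k := by
  have hgal : IsGalois K Ω := IsAlgClosure.isGalois K Ω
  obtain ⟨E, hE, hle⟩ := hφ
  obtain ⟨M, hM⟩ : ∃ M : IntermediateField K Ω, M = IntermediateField.normalClosure K E Ω :=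
    ⟨_, rfl⟩
  have hEM : E ≤ M := by
    rw [hM]
    exact IntermediateField.le_normalClosure E
  have hfd : FiniteDimensional K M := by
    rw [hM]
    infer_instance
  have hnum : NumberField M := NumberField.of_module_finite K M
  have hnor : Normal K M := by
    rw [hM]
    infer_instance
  have hgM : IsGalois K M := { to_normal := hnor, to_isSeparable := inferInstance }
  obtain ⟨k, hk⟩ := dcfr P hP hv M σ hσ
  have hnm : 0 < nm v := lt_trans Nat.zero_lt_one (one_lt_nm v)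
  have hFP : ∀ y ∈ P, F • y ∈ P := by
    intro y hy
    have h1 := P.add_mem (hF y) (P.pow_mem_of_mem hy (nm v) hnm)
    rwa [sub_add_cancel] at h1
  have hpow : ∀ (k : ℕ) (x : 𝓞 Ω), (F ^ k) • x - x ^ (nm v ^ k) ∈ P := by
    intro k
    induction k with
    | zero =>
      intro x
      rw [pow_zero, pow_zero, one_smul, pow_one, sub_self]
      exact P.zero_mem
    | succ k ih =>
      intro x
      have h1 : (F ^ (k + 1)) • x - x ^ (nm v ^ (k + 1)) =
          F • ((F ^ k) • x - x ^ (nm v ^ k)) +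
            (F • (x ^ (nm v ^ k)) - (x ^ (nm v ^ k)) ^ nm v) := by
        rw [smul_sub, pow_succ' F, mul_smul, ← pow_mul, ← pow_succ]
        ring
      rw [h1]
      exact P.add_mem (hFP _ (ih x)) (hF _)
  set ρ : Gal(Ω/K) := (F ^ k)⁻¹ * σ with hρ
  have hin : ∀ x : 𝓞 M, ρ • (algebraMap (𝓞 M) (𝓞 Ω) x) - algebraMap (𝓞 M) (𝓞 Ω) x ∈ P := by
    intro x
    set y : 𝓞 Ω := ρ • (algebraMap (𝓞 M) (𝓞 Ω) x) - algebraMap (𝓞 M) (𝓞 Ω) x with hy
    have h1 : (F ^ k) • y = σ • (algebraMap (𝓞 M) (𝓞 Ω) x) -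
        (F ^ k) • (algebraMap (𝓞 M) (𝓞 Ω) x) := by
      rw [hy, smul_sub, ← mul_smul, hρ, mul_inv_cancel_left]
    have h2 : (F ^ k) • y ∈ P := by
      rw [h1]
      have h3 := P.sub_mem (hk x) (hpow k (algebraMap (𝓞 M) (𝓞 Ω) x))
      rwa [sub_sub_sub_cancel_right] at h3
    have h3 : y ^ (nm v ^ k) ∈ P := by
      have h4 := P.sub_mem h2 (hpow k y)
      rwa [sub_sub_cancel] at h4
    exact hP.mem_of_pow_mem _ h3
  set δ : Gal(M/K) := AlgEquiv.restrictNormal ρ M with hδ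
  have hδρ : ∀ x : M, ((δ x : M) : Ω) = ρ (x : Ω) := fun x =>
    AlgEquiv.restrictNormal_commutes ρ M x
  obtain ⟨τ, hτ, hτM⟩ := CDa_lift M P hP δ (by
    intro x
    rw [Ideal.mem_comap, map_sub]
    have h1 : algebraMap (𝓞 M) (𝓞 Ω) (δ • x) = ρ • (algebraMap (𝓞 M) (𝓞 Ω) x) := by
      apply NumberField.RingOfIntegers.ext
      exact hδρ x
    rw [h1]
    exact hin x)
  have hφτ : φ τ = φ ρ := by
    have h1 : τ⁻¹ * ρ ∈ E.fixingSubgroup := by
      rw [IntermediateField.mem_fixingSubgroup_iff]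
      intro x hx
      have h2 : ρ x = τ x := by
        rw [← hδρ ⟨x, hEM hx⟩, ← hτM ⟨x, hEM hx⟩]
      rw [AlgEquiv.mul_apply, h2]
      exact AlgEquiv.symm_apply_apply τ x
    have h2 := MonoidHom.mem_ker.1 (hle h1)
    rw [map_mul, map_inv] at h2
    exact inv_mul_eq_one.1 h2
  rw [hu τ hτ] at hφτ
  refine ⟨k, ?_⟩
  rw [hρ, map_mul, map_inv, map_pow] at hφτ
  exact (inv_mul_eq_one.1 hφτ.symm).symm

end aux

variable {K : IntermediateField ℚ QBar} [NumberField K]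

theorem fr_dec (Q : DP K QBar) (v : Pl K) : fr Q v ∈ dec (K := K) (Q.P v) := by
  have hnm : 0 < nm v := lt_trans Nat.zero_lt_one (one_lt_nm v)
  intro x
  have h1 := fr_spec Q v x
  constructor
  · intro h
    have h2 := (Q.P v).sub_mem h h1
    rw [sub_sub_cancel] at h2
    exact (Q.prime v).mem_of_pow_mem _ h2
  · intro h
    have h2 := (Q.P v).add_mem h1 ((Q.P v).pow_mem_of_mem h (nm v) hnm)
    rwa [sub_add_cancel] at h2

theorem dec_zp {A : Type} [Group A] (Q : DP K QBar) (φ : Gal(QBar/K) →* A) (hφ : FT φ) (v : Pl K)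
    (hu : ∀ τ ∈ (Q.P v).inertia Gal(QBar/K), φ τ = 1) (σ : Gal(QBar/K)) (hσ : σ ∈ dec (K := K) (Q.P v)) :
    φ σ ∈ Subgroup.zpowers (φ (fr Q v)) := by
  obtain ⟨k, hk⟩ := dcgen (Q.P v) (Q.prime v) (Q.under v) (fr_spec Q v) φ hφ hu σ hσ
  rw [hk]
  exact Subgroup.npow_mem_zpowers _ _

theorem orb_fix {A X : Type} [Group A] [Finite A] [MulAction A X] (x : X) (b : A) (H : Subgroup A)
    (hH : ∀ a, a ∈ H ↔ a • x = x) :
    Nat.card {s : X // (∃ a : A, s = a • x) ∧ b • s = s} = fxp H b := by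
  have hw : ∀ a c : A, a⁻¹ * c ∈ H ↔ a • x = c • x := by
    intro a c
    rw [hH, mul_smul]
    constructor
    · intro h
      rw [← h, smul_inv_smul, h]
    · intro h
      rw [← h, inv_smul_smul]
  have hq : ∀ a : A, b • ((a : A) : A ⧸ H) = ((a : A) : A ⧸ H) ↔ b • (a • x) = a • x := by
    intro a
    rw [← mul_smul, ← hw (b * a) a, ← QuotientGroup.eq]
    rfl
  symm
  unfold fxp
  refine Nat.card_congr (Equiv.ofBijective (fun y : {y : A ⧸ H // b • y = y} =>
    (⟨Quotient.liftOn' y.1 (fun a => a • x) (fun a c h => (hw a c).1 (QuotientGroup.leftRel_apply.1 h)), ?_⟩ :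
      {s : X // (∃ a : A, s = a • x) ∧ b • s = s})) ⟨?_, ?_⟩)
  · obtain ⟨y, hy⟩ := y
    induction y using QuotientGroup.induction_on with
    | H a => exact ⟨⟨a, rfl⟩, (hq a).1 hy⟩
  · rintro ⟨y, hy⟩ ⟨z, hz⟩ h
    induction y using QuotientGroup.induction_on with
    | H a =>
      induction z using QuotientGroup.induction_on with
      | H c =>
        have h1 : a • x = c • x := congrArg Subtype.val h
        exact Subtype.ext (QuotientGroup.eq.2 ((hw a c).2 h1))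
  · rintro ⟨s, ⟨a, rfl⟩, hs⟩
    exact ⟨⟨(a : A ⧸ H), (hq a).2 hs⟩, rfl⟩

theorem fo_fxp {A : Type} [Group A] [Finite A] {T : Type} [AddCommGroup T] [Finite T] [DistribMulAction A T]
    (Q : DP K QBar) (φ : Gal(QBar/K) →* A) (hφ : FT φ) (v : Pl K)
    (hu : ∀ τ ∈ (Q.P v).inertia Gal(QBar/K), φ τ = 1) (x : T) (H : Subgroup A)
    (hH : ∀ a, a ∈ H ↔ a • x = x) : (H12.KF.fo φ Q x v).card = fxp H (φ (fr Q v)) := by
  rw [← orb_fix x (φ (fr Q v)) H hH]
  unfold H12.KF.fo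
  rw [← Set.ncard_eq_toFinset_card _ (Set.toFinite _)]
  have h1 : {s : T | (∃ a : A, s = a • x) ∧ ∀ σ ∈ dec (K := K) (Q.P v), φ σ • s = s} =
      {s : T | (∃ a : A, s = a • x) ∧ φ (fr Q v) • s = s} := by
    ext s
    refine and_congr_right fun _ => ⟨fun h => h _ (fr_dec Q v), fun h σ hσ => ?_⟩
    have h2 : Subgroup.zpowers (φ (fr Q v)) ≤ MulAction.stabilizer A s := by
      rw [Subgroup.zpowers_le]
      exact h
    exact h2 (dec_zp Q φ hφ v hu σ hσ)
  rw [h1]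
  rfl

end H51.K1
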