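import Pool.Agent.H51.K1.Def
import Pool.Agent.H12.KF.TDf

/-!
# [H51 K1 Br2] The boxes `BF` (sets of primes of `Vx S₀`) and `Bx` (sets of primes disjoint from `S₀ ∪ Dr`)

`bx_mem`: for `f ∈ Bx (S₀ ∪ Dr) F (C ^ 3)` the family `q j := (f j).subtype (· ∉ S₀)` is in `BF C F` (unfold: `SQ x = SY x x` the finite sets in `P x` with
product of norms at most `x`: for `v ∈ q j` `nm v ≤ ∏ nm ≤ C ^ 3 F j` because all norms are at least `1`; `mem_AF`).
`bfx`: the terms of `q ∈ BF` with some `v ∈ q j`, `v ∈ Dr` are `0` (`rr = 0`); the others are in bijection with `Bx` by `f j = (q j).map Subtype.val`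
(injective; only `≤` is needed, so the image is enough: `Finset.sum_le_sum_of_injOn`-like or `Finset.sum_image` and `sum_le_sum_of_subset_of_nonneg`).
-/

set_option autoImplicit false

open scoped NumberField Classical
open IsDedekindDomain H38.ML Pool.Agent.H36.RS

noncomputable section

namespace H51.K1

open H63.MA H38.BB H38.BG H77.PC3 H51.SN H57.SL H36.QA H88.LH

variable {K : IntermediateField ℚ QBar} [NumberField K]

private theorem b2_np {A : Type} [Group A] {J : Type} [Fintype J] (Q : DP K QBar) (S₀ Dr : Finset (Pl K))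
    (H : J → Subgroup A) (φ : Gal(QBar/K) →* A) (g : J → Vx S₀ → ℝ) (Z : ℝ) (q : Finset (Vx S₀)) :
    (dat Q S₀ H (fun _ : Unit => φ) (fun _ => Dr) g Z).NP q = nr (q.map (Function.Embedding.subtype _)) := by
  unfold nr
  rw [Finset.prod_map]
  rfl

private theorem b2_nm_le {v : Pl K} {s : Finset (Pl K)} (hv : v ∈ s) : (nm v : ℝ) ≤ nr s := by
  have h1 := nr_mono (Finset.singleton_subset_iff.2 hv)
  unfold nr at h1 ⊢
  rw [Finset.prod_singleton] at h1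
  exact h1

private theorem b2_mem {A : Type} [Group A] {J : Type} [Fintype J] (Q : DP K QBar) (S₀ Dr : Finset (Pl K))
    (H : J → Subgroup A) (φ : Gal(QBar/K) →* A) (g : J → Vx S₀ → ℝ) (Z C : ℝ) (F : J → ℝ) (q : J → Finset (Vx S₀)) :
    q ∈ (dat Q S₀ H (fun _ : Unit => φ) (fun _ => Dr) g Z).BF C F ↔
      ((∀ j, nr ((q j).map (Function.Embedding.subtype _)) ≤ C ^ 3 * F j) ∧ (∀ i j, i ≠ j → Disjoint (q i) (q j)) ∧
        ∀ j, F j < nr ((q j).map (Function.Embedding.subtype _))) := by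
  unfold Dat.BF Dat.SQ Dat.SY
  rw [Finset.mem_filter, Fintype.mem_piFinset]
  constructor
  · rintro ⟨h1, h2, h3⟩
    refine ⟨fun j => ?_, h2, fun j => ?_⟩
    · have h4 := (Finset.mem_filter.1 (h1 j)).2
      rw [b2_np] at h4
      exact h4
    · have h4 := h3 j
      rw [b2_np] at h4
      exact h4
  · rintro ⟨h1, h2, h3⟩
    refine ⟨fun j => ?_, h2, fun j => ?_⟩
    · rw [Finset.mem_filter, Finset.mem_powerset]
      constructor
      · intro v hv
        show v ∈ PV S₀ (C ^ 3 * F j)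
        unfold PV
        rw [Set.Finite.mem_toFinset]
        show (nm v.1 : ℝ) ≤ C ^ 3 * F j
        refine le_trans (b2_nm_le ?_) (h1 j)
        exact Finset.mem_map_of_mem _ hv
      · rw [b2_np]
        exact h1 j
    · rw [b2_np]
      exact h3 j

private theorem b2_bx {J : Type} [Fintype J] (B : Finset (Pl K)) (C : ℝ) (F : J → ℝ) (f : J → Finset (Pl K)) :
    f ∈ H12.KF.Bx B F (C ^ 3) ↔ ((∀ j, nr (f j) ≤ C ^ 3 * F j ∧ F j < nr (f j) ∧ Disjoint (f j) B) ∧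
      ∀ i j, i ≠ j → Disjoint (f i) (f j)) := by
  unfold H12.KF.Bx H12.KF.Win
  rw [Finset.mem_filter, Fintype.mem_piFinset]
  refine and_congr (forall_congr' fun j => ?_) Iff.rfl
  rw [Finset.mem_filter, mem_AF]

theorem bx_mem {A : Type} [Group A] {J : Type} [Fintype J] (Q : DP K QBar) (S₀ Dr : Finset (Pl K))
    (H : J → Subgroup A) (φ : Gal(QBar/K) →* A) (g : J → Vx S₀ → ℝ) (Z C : ℝ) (F : J → ℝ)
    (f : J → Finset (Pl K)) (hf : f ∈ H12.KF.Bx (S₀ ∪ Dr) F (C ^ 3)) :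
    (fun j => (f j).subtype (fun v => v ∉ S₀)) ∈
      (dat Q S₀ H (fun _ : Unit => φ) (fun _ => Dr) g Z).BF C F ∧ ∀ j, ∀ v ∈ f j, v ∉ S₀ ∧ v ∉ Dr := by
  obtain ⟨h1, h2⟩ := (b2_bx _ C F f).1 hf
  have hno : ∀ j, ∀ v ∈ f j, v ∉ S₀ ∧ v ∉ Dr := by
    intro j v hv
    have h3 := Finset.disjoint_left.1 (h1 j).2.2 hv
    rw [Finset.mem_union, not_or] at h3
    exact h3
  refine ⟨?_, hno⟩
  have hmap : ∀ j, ((f j).subtype (fun v => v ∉ S₀)).map (Function.Embedding.subtype _) = f j := by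
    intro j
    exact Finset.subtype_map_of_mem fun v hv => (hno j v hv).1
  rw [b2_mem]
  refine ⟨fun j => ?_, fun i j hij => ?_, fun j => ?_⟩
  · rw [hmap]
    exact (h1 j).1
  · rw [Finset.disjoint_left]
    intro v hv hv'
    rw [Finset.mem_subtype] at hv hv'
    exact Finset.disjoint_left.1 (h2 i j hij) hv hv'
  · rw [hmap]
    exact (h1 j).2.1

theorem bfx {A : Type} [Group A] {J : Type} [Fintype J] (Q : DP K QBar) (S₀ Dr : Finset (Pl K))
    (H : J → Subgroup A) (φ : Gal(QBar/K) →* A) (g : J → Vx S₀ → ℝ) (Z C : ℝ) (F : J → ℝ)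
    (w : J → Pl K → ℝ) (hw0 : ∀ j v, 0 ≤ w j v)
    (hw : ∀ j (v : Vx S₀), v.1 ∉ Dr → rr Q S₀ H φ Dr j v = w j v.1) :
    ∑ q ∈ (dat Q S₀ H (fun _ : Unit => φ) (fun _ => Dr) g Z).BF C F, ∏ j, ∏ v ∈ q j, rr Q S₀ H φ Dr j v ≤
      ∑ f ∈ H12.KF.Bx (S₀ ∪ Dr) F (C ^ 3), ∏ j, ∏ v ∈ f j, w j v := by
  obtain ⟨B, hB⟩ : ∃ B, B = (dat Q S₀ H (fun _ : Unit => φ) (fun _ => Dr) g Z).BF C F := ⟨_, rfl⟩
  rw [← hB]
  have h1 : ∑ q ∈ B, ∏ j, ∏ v ∈ q j, rr Q S₀ H φ Dr j v =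
      ∑ q ∈ B.filter (fun q => ∀ j, ∀ v ∈ q j, v.1 ∉ Dr), ∏ j, ∏ v ∈ q j, rr Q S₀ H φ Dr j v := by
    rw [Finset.sum_filter]
    refine Finset.sum_congr rfl fun q _ => ?_
    by_cases h : ∀ j, ∀ v ∈ q j, v.1 ∉ Dr
    · rw [if_pos h]
    · rw [if_neg h]
      push Not at h
      obtain ⟨j, v, hv, hvD⟩ := h
      refine Finset.prod_eq_zero (Finset.mem_univ j) (Finset.prod_eq_zero hv ?_)
      unfold rr
      rw [if_pos hvD]
  obtain ⟨Ψ, hΨ⟩ : ∃ Ψ : (J → Finset (Vx S₀)) → J → Finset (Pl K), ∀ q j, Ψ q j = (q j).map (Function.Embedding.subtype _) :=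
    ⟨fun q j => (q j).map (Function.Embedding.subtype _), fun _ _ => rfl⟩
  have hinj : Function.Injective Ψ := by
    intro q q' h
    funext j
    have h2 := congrFun h j
    rw [hΨ, hΨ] at h2
    exact Finset.map_injective _ h2
  have h2 : ∀ q ∈ B.filter (fun q => ∀ j, ∀ v ∈ q j, v.1 ∉ Dr), ∏ j, ∏ v ∈ q j, rr Q S₀ H φ Dr j v =
      (fun f : J → Finset (Pl K) => ∏ j, ∏ v ∈ f j, w j v) (Ψ q) := by
    intro q hq
    have h3 := (Finset.mem_filter.1 hq).2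
    refine Finset.prod_congr rfl fun j _ => ?_
    rw [hΨ, Finset.prod_map]
    exact Finset.prod_congr rfl fun v hv => hw j v (h3 j v hv)
  rw [h1, Finset.sum_congr rfl h2, ← Finset.sum_image (f := fun f : J → Finset (Pl K) => ∏ j, ∏ v ∈ f j, w j v)
    hinj.injOn]
  refine Finset.sum_le_sum_of_subset_of_nonneg ?_ fun f _ _ => Finset.prod_nonneg fun j _ => Finset.prod_nonneg fun v _ => hw0 j v
  intro f hf
  obtain ⟨q, hq, rfl⟩ := Finset.mem_image.1 hf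
  obtain ⟨h3, h4⟩ := Finset.mem_filter.1 hq
  rw [hB, b2_mem] at h3
  obtain ⟨h5, h6, h7⟩ := h3
  rw [b2_bx]
  refine ⟨fun j => ⟨?_, ?_, ?_⟩, fun i j hij => ?_⟩
  · rw [hΨ]
    exact h5 j
  · rw [hΨ]
    exact h7 j
  · rw [hΨ, Finset.disjoint_left]
    intro v hv
    obtain ⟨v', hv', rfl⟩ := Finset.mem_map.1 hv
    rw [Finset.mem_union, not_or]
    exact ⟨v'.2, h4 j v' hv'⟩
  · rw [hΨ, hΨ, Finset.disjoint_map]
    exact h6 i j hij

end H51.K1
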