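import Pool.Agent.H36.RS.Bxd
import Pool.Agent.H88.LH.Defs
import Pool.Agent.H51.SN.Defs
import Pool.Agent.H63.MA.SymA

/-!
# THEOREM K1 (MP_b39724_nt): definitions and the interfaces of the chapters (architect helper51)

`G = T ⋊ A`, `T` abelian of squarefree exponent, `A` abelian, coprime orders. `K` is a totally complex number field in `QBar` with
a primitive `m`-th root of unity `ζ`, `m` a multiple of `card G`.

* `uf v`: a fixed element of `Kˣ` with `ord v (uf v) = 1`. `tx m ζ v x τ := x ^ t`, `t` the Kummer symbol of `uf v` of order `orderOf x` at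
  `τ`: the value at `τ ∈ inertia` of a homomorphism of type `x` at `v`.
* `Vx S₀`: the primes outside `S₀`; `PV S₀ x` those of norm at most `x`. `fxp H a`: the number of fixed points of `a` on `A ⧸ H`.
* `TyA`: typed homomorphisms to `A`: `D o` is the set of the primes of type `o`; trivial on the decomposition groups at `S'`.
* `rr φ Dr H j v`: the number of fixed points of `φ (fr Q v)` on `A ⧸ H j`, `0` for `v ∈ Dr`.
* `dat`: the data of H36/RS for a finite family (weights `1`, `κ := T / Z`).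
* `TyT`: typed homomorphisms to `G` over `φ`: `q j` is the set of the primes of type `x j`.
* `FAM`: the output of the chapter FA (families of homomorphisms to `A`); `FIB`: the output of the fibre chapter.
-/

set_option autoImplicit false

open scoped NumberField Classical
open IsDedekindDomain H38.ML Pool.Agent.H36.RS

noncomputable section

namespace H51.K1

open H63.MA H38.BB H38.BG H77.PC3 H51.SN H57.SL H36.QA H88.LH

variable {K : IntermediateField ℚ QBar} [NumberField K]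

/-- a uniformiser -/
def uf (v : Pl K) : Kˣ := (exists_unif v).choose

theorem ord_uf (v : Pl K) : ord v (uf v) = 1 := (exists_unif v).choose_spec

/-- the value at `τ ∈ inertia` of a homomorphism of type `x` at `v` -/
def tx {G : Type} [Group G] (m : ℕ) (ζ : K) (v : Pl K) (x : G) (τ : Gal(QBar/K)) : G :=
  x ^ (kq (orderOf x) (ζ ^ (m / orderOf x)) ((uf v : K) : QBar) τ).val

/-- the primes outside `S₀` -/
abbrev Vx (S₀ : Finset (Pl K)) : Type := {v : Pl K // v ∉ S₀}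

theorem fin_Vx (S₀ : Finset (Pl K)) (x : ℝ) : {v : Vx S₀ | (nm v.1 : ℝ) ≤ x}.Finite := by
  have h : {v : Pl K | nm v ≤ ⌊x⌋₊}.Finite := by
    have h1 := (Ideal.finite_setOfPred_absNorm_le (S := 𝓞 K) ⌊x⌋₊).preimage
      (f := fun v : Pl K => v.asIdeal) (fun v _ w _ h => HeightOneSpectrum.ext h)
    exact h1
  refine (h.preimage Subtype.val_injective.injOn).subset fun v hv => ?_
  exact Nat.le_floor hv

/-- the primes outside `S₀` of norm at most `x` -/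
def PV (S₀ : Finset (Pl K)) (x : ℝ) : Finset (Vx S₀) := (fin_Vx S₀ x).toFinset

/-- the number of fixed points of `a` on `A ⧸ H` -/
def fxp {A : Type} [Group A] (H : Subgroup A) (a : A) : ℕ := Nat.card {x : A ⧸ H // a • x = x}

/-- typed homomorphisms to `A` -/
structure TyA {A : Type} [Group A] (Q : DP K QBar) (m : ℕ) (ζ : K) (S₀ S' : Finset (Pl K)) (L : Set A)
    (D : A → Finset (Pl K)) (φ : Gal(QBar/K) →* A) : Prop where
  ft : FT φ
  srj : Function.Surjective φ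
  out : ∀ o, ∀ v ∈ D o, v ∉ S₀
  sup : ∀ o, o ∉ L → D o = ∅
  dis : ∀ o o', o ≠ o' → Disjoint (D o) (D o')
  ram : ∀ o, ∀ v ∈ D o, ∀ τ ∈ (Q.P v).inertia Gal(QBar/K), φ τ = tx m ζ v o τ
  unr : ∀ v, v ∉ S₀ → (∀ o, v ∉ D o) → ∀ τ ∈ (Q.P v).inertia Gal(QBar/K), φ τ = 1
  dec : ∀ v ∈ S', ∀ σ ∈ dec (K := K) (Q.P v), φ σ = 1

/-- the number of fixed points of Frobenius on the orbit `A ⧸ H j`, `0` for `v ∈ Dr` -/
def rr {A : Type} [Group A] {J : Type} (Q : DP K QBar) (S₀ : Finset (Pl K)) (H : J → Subgroup A)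
    (φ : Gal(QBar/K) →* A) (Dr : Finset (Pl K)) (j : J) (v : Vx S₀) : ℝ :=
  if v.1 ∈ Dr then 0 else (fxp (H j) (φ (fr Q v.1)) : ℝ)

/-- the data of the chapter H36/RS for a finite family, without residues -/
def dat0 {A : Type} [Group A] {J ι : Type} (Q : DP K QBar) (S₀ : Finset (Pl K)) (H : J → Subgroup A)
    (φ : ι → Gal(QBar/K) →* A) (Dr : ι → Finset (Pl K)) (g : J → Vx S₀ → ℝ) : Dat (Vx S₀) J ι where
  nm v := nm v.1
  P := PV S₀
  r i j v := rr Q S₀ H (φ i) (Dr i) j v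
  g := g
  w _ := 1
  κ _ _ := 0

/-- the data with `κ := T / Z` -/
def dat {A : Type} [Group A] {J ι : Type} (Q : DP K QBar) (S₀ : Finset (Pl K)) (H : J → Subgroup A)
    (φ : ι → Gal(QBar/K) →* A) (Dr : ι → Finset (Pl K)) (g : J → Vx S₀ → ℝ) (Z : ℝ) : Dat (Vx S₀) J ι :=
  { dat0 Q S₀ H φ Dr g with
    κ := fun i j => (dat0 Q S₀ H φ Dr g).T i j (Z ^ (1 : ℝ)) (Z ^ (1 : ℝ)) / Z ^ (1 : ℝ) }

/-- the union of the `D o` -/
def UD {A : Type} [Finite A] (D : A → Finset (Pl K)) : Finset (Pl K) :=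
  (Set.toFinite (Set.univ : Set A)).toFinset.biUnion D

/-- the norm of a finite set of primes -/
def nN (s : Finset (Pl K)) : ℝ := ∏ v ∈ s, (nm v : ℝ)

/-- typed homomorphisms to `G` over `φ` -/
structure TyT {G : Type} [Group G] (Q : DP K QBar) (m : ℕ) (ζ : K) (S₀ : Finset (Pl K)) (T : Subgroup G)
    {J : Type} (x : J → G) (φ : Gal(QBar/K) →* G) (q : J → Finset (Vx S₀)) (θ : Gal(QBar/K) →* G) : Prop where
  ft : FT θ
  ovr : ∀ σ, θ σ * (φ σ)⁻¹ ∈ T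
  ram : ∀ j, ∀ v ∈ q j, ∃ g : G, ∀ τ ∈ (Q.P v.1).inertia Gal(QBar/K), θ τ = g * tx m ζ v.1 (x j) τ * g⁻¹
  unr : ∀ v : Vx S₀, (∀ j, v ∉ q j) → ∃ t ∈ T, ∀ τ ∈ (Q.P v.1).inertia Gal(QBar/K), θ τ = t * φ τ * t⁻¹

/-- the chapter FA: for every box `X` a family of typed homomorphisms to the abelian group `A`, with the hypotheses of H36/RS -/
def FAM : Prop :=
  ∀ (K : IntermediateField ℚ QBar) [NumberField K] (_ : NumberField.IsTotallyComplex K) (m : ℕ) (ζ : K)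
    (_ : IsPrimitiveRoot ζ m) (A : Type) [Group A] [Finite A] (_ : ∀ a b : A, a * b = b * a) (_ : Nat.card A ∣ m)
    (_ : 0 < m) (L : Set A) (_ : ∀ o ∈ L, (orderOf o).Prime) (J : Type) [Fintype J] (H : J → Subgroup A) (Q : DP K QBar)
    (φ₀ : Gal(QBar/K) →* A) (_ : FT φ₀) (_ : Function.Surjective φ₀) (S₁ S' : Finset (Pl K))
    (_ : ∀ v ∈ S', ((m : ℕ) : 𝓞 K) ∉ v.asIdeal) (_ : ∀ v ∈ S', ∀ σ ∈ dec (K := K) (Q.P v), φ₀ σ = 1),
    ∃ (S₀ : Finset (Pl K)) (C θ η c Z0 : ℝ), S₁ ⊆ S₀ ∧ 2 ≤ C ∧ 0 < θ ∧ 0 < η ∧ 0 < c ∧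
      ∀ Z : ℝ, Z0 ≤ Z → ∀ X : A → ℝ, (∀ o, Z ≤ X o) → (∀ o, X o ≤ Z ^ 2) →
        ∃ (ι : Type) (_ : Fintype ι) (φ : ι → Gal(QBar/K) →* A) (D : ι → A → Finset (Pl K)) (g : J → Vx S₀ → ℝ),
          Function.Injective φ ∧ c * ∏ᶠ o ∈ L, X o ≤ (Fintype.card ι : ℝ) ∧
          (∀ i, TyA Q m ζ S₀ S' L (D i) (φ i)) ∧
          (∀ i, ∀ o ∈ L, X o < nN (D i o) ∧ nN (D i o) ≤ C * X o) ∧
          Hyp C θ η 1 Z (dat Q S₀ H φ (fun i => UD (D i)) g Z)

/-- the stabiliser of `x` in `A` -/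
def stb {G : Type} [Group G] (A : Subgroup G) (x : G) : Subgroup A where
  carrier := {a | (a : G) * x * (a : G)⁻¹ = x}
  one_mem' := by simp
  mul_mem' := by
    intro a b ha hb
    simp only [Set.mem_ofPred_eq, Subgroup.coe_mul, mul_inv_rev] at ha hb ⊢
    calc (a : G) * b * x * ((b : G)⁻¹ * (a : G)⁻¹) = a * (b * x * (b : G)⁻¹) * (a : G)⁻¹ := by group
      _ = x := by rw [hb, ha]
  inv_mem' := by
    intro a ha
    simp only [Set.mem_ofPred_eq, Subgroup.coe_inv, inv_inv] at ha ⊢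
    calc (a : G)⁻¹ * x * a = (a : G)⁻¹ * (a * x * (a : G)⁻¹) * a := by rw [ha]
      _ = x := by group

/-- the output of the fibre chapter for one `G = T ⋊ A`: typed homomorphisms to `G` over `φ : Γ → A`, in a box of scale `U` -/
def FibO {K : IntermediateField ℚ QBar} [NumberField K] (m : ℕ) (ζ : K) {G : Type} [Group G] (T A : Subgroup G)
    {J : Type} [Fintype J] (x : J → G) (Q : DP K QBar) (S₀ S' : Finset (Pl K)) (C a b c B C1 δ U0 : ℝ) : Prop :=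
  ∀ (φ : Gal(QBar/K) →* A), FT φ → Function.Surjective φ →
    (∀ v ∈ S', ∀ σ ∈ dec (K := K) (Q.P v), φ σ = 1) →
    ∀ Dr : Finset (Pl K), (∀ v ∈ Dr, v ∉ S₀) →
    (∀ v, v ∉ S₀ → v ∉ Dr → ∀ τ ∈ (Q.P v).inertia Gal(QBar/K), φ τ = 1) →
    ∀ (g : J → Vx S₀ → ℝ) (Z U : ℝ) (F : J → ℝ), U0 ≤ U → (∀ j, U ^ a ≤ F j) → (∀ j, F j ≤ U ^ b) →
      ∃ Θ : Finset (Gal(QBar/K) →* G),
        c * ((∑ q ∈ (dat Q S₀ (fun j => stb A (x j)) (fun _ : Unit => φ) (fun _ => Dr) g Z).BF C F,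
            ∏ j, ∏ v ∈ q j, rr Q S₀ (fun j => stb A (x j)) φ Dr j v)
          - C1 * nN Dr ^ B * (∏ j, F j) * U ^ (-δ)) ≤ (Θ.card : ℝ) ∧
        ∀ θ ∈ Θ, (∀ v ∈ S', ∀ σ ∈ dec (K := K) (Q.P v), θ σ = 1) ∧
          ∃ q ∈ (dat Q S₀ (fun j => stb A (x j)) (fun _ : Unit => φ) (fun _ => Dr) g Z).BF C F,
            (∀ j, ∀ v ∈ q j, v.1 ∉ Dr) ∧ TyT Q m ζ S₀ T x (A.subtype.comp φ) q θ

/-- the fibre chapter -/
def FIB : Prop :=
  ∀ (K : IntermediateField ℚ QBar) [NumberField K] (_ : NumberField.IsTotallyComplex K) (m : ℕ) (ζ : K)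
    (_ : IsPrimitiveRoot ζ m) (G : Type) [Group G] [Finite G] (_ : Nat.card G ∣ m) (T A : Subgroup G)
    (_ : T.Normal) (_ : ∀ s ∈ T, ∀ t ∈ T, s * t = t * s) (_ : Subgroup.IsComplement' T A)
    (_ : Nat.Coprime (Nat.card T) (Nat.card A)) (J : Type) [Fintype J] (x : J → G)
    (_ : ∀ j, x j ∈ T) (_ : ∀ j, (orderOf (x j)).Prime) (_ : ∀ i j, IsConj (x i) (x j) → i = j)
    (_ : T = Subgroup.closure {y : G | ∃ j, IsConj (x j) y}) (Q : DP K QBar) (S₀ S' : Finset (Pl K))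
    (_ : S' ⊆ S₀) (_ : ∀ v : Pl K, ((m : ℕ) : 𝓞 K) ∈ v.asIdeal → v ∈ S₀)
    (_ : ∀ v ∈ S', ((m : ℕ) : 𝓞 K) ∉ v.asIdeal) (C a b : ℝ) (_ : 2 ≤ C) (_ : 0 < a) (_ : a ≤ b),
    ∃ c B C1 δ U0 : ℝ, 0 < c ∧ 0 < B ∧ 0 < C1 ∧ 0 < δ ∧ 1 ≤ U0 ∧ FibO m ζ T A x Q S₀ S' C a b c B C1 δ U0

end H51.K1
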