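import Pool.Agent.H51.K1.Br1
import Pool.Agent.H51.K1.Br2
import Pool.Agent.H12.KF.Fin
import Pool.Agent.H88.LH.Spx

/-!
# [H51 K1 Fib] FIB from `H12.KF.fibre_box`

`MT`: the commutative normal subgroup `T` as an additive group with the action of the subgroup `A` by conjugation.
`thO`: the homomorphism `σ ↦ κ σ * φ σ`.
-/

set_option autoImplicit false

open scoped NumberField Classical
open IsDedekindDomain H38.ML Pool.Agent.H36.RS

noncomputable section

namespace H51.K1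

open H63.MA H38.BB H38.BG H77.PC3 H51.SN H57.SL H36.QA H88.LH

/-- the additive group of `T` -/
@[ext] structure MT {G : Type} [Group G] (T : Subgroup G) (hT : T.Normal)
    (hTc : ∀ s ∈ T, ∀ t ∈ T, s * t = t * s) : Type where
  v : G
  m : v ∈ T

section alg

variable {G : Type} [Group G] {T A : Subgroup G} {hT : T.Normal}
  {hTc : ∀ s ∈ T, ∀ t ∈ T, s * t = t * s}

instance : Add (MT T hT hTc) := ⟨fun a b => ⟨a.v * b.v, T.mul_mem a.m b.m⟩⟩
instance : Zero (MT T hT hTc) := ⟨⟨1, T.one_mem⟩⟩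
instance : Neg (MT T hT hTc) := ⟨fun a => ⟨a.v⁻¹, T.inv_mem a.m⟩⟩

theorem add_v (a b : MT T hT hTc) : (a + b).v = a.v * b.v := rfl
theorem zero_v : (0 : MT T hT hTc).v = 1 := rfl
theorem neg_v (a : MT T hT hTc) : (-a).v = a.v⁻¹ := rfl

instance : AddCommGroup (MT T hT hTc) where
  add_assoc a b c := MT.ext (mul_assoc _ _ _)
  zero_add a := MT.ext (one_mul _)
  add_zero a := MT.ext (mul_one _)
  neg_add_cancel a := MT.ext (inv_mul_cancel _)
  add_comm a b := MT.ext (hTc _ a.m _ b.m)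
  nsmul := nsmulRec
  zsmul := zsmulRec

theorem sub_v (a b : MT T hT hTc) : (a - b).v = a.v * b.v⁻¹ := by
  rw [sub_eq_add_neg, add_v, neg_v]

instance : SMul A (MT T hT hTc) := ⟨fun a t => ⟨a * t.v * (a : G)⁻¹, hT.conj_mem _ t.m a⟩⟩

theorem smul_v (a : A) (t : MT T hT hTc) : (a • t).v = a * t.v * (a : G)⁻¹ := rfl

instance : DistribMulAction A (MT T hT hTc) where
  one_smul t := by
    apply MT.ext
    rw [smul_v]
    simp
  mul_smul a b t := by
    apply MT.ext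
    rw [smul_v, smul_v, smul_v]
    simp [mul_assoc]
  smul_zero a := by
    apply MT.ext
    rw [smul_v, zero_v]
    simp
  smul_add a s t := by
    apply MT.ext
    rw [smul_v, add_v, add_v, smul_v, smul_v]
    simp [mul_assoc]

theorem nsmul_v (n : ℕ) (a : MT T hT hTc) : (n • a).v = a.v ^ n := by
  induction n with
  | zero => rw [zero_smul, pow_zero, zero_v]
  | succ n ih => rw [succ_nsmul, add_v, ih, pow_succ]

instance [Finite G] : Finite (MT T hT hTc) :=
  Finite.of_injective (fun t => t.v) fun _ _ h => MT.ext h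

theorem ord_v (a : MT T hT hTc) : addOrderOf a = orderOf a.v := by
  apply Nat.dvd_antisymm
  · rw [addOrderOf_dvd_iff_nsmul_eq_zero]
    apply MT.ext
    rw [nsmul_v, zero_v, pow_orderOf_eq_one]
  · rw [orderOf_dvd_iff_pow_eq_one, ← nsmul_v, addOrderOf_nsmul_eq_zero, zero_v]

/-- the homomorphism of the pair `(κ, φ)` -/
def thO {Γ : Type} [Group Γ] (φ : Γ →* A) (κ : Γ → MT T hT hTc)
    (h : ∀ σ τ, κ (σ * τ) = κ σ + φ σ • κ τ) : Γ →* G where
  toFun σ := (κ σ).v * (φ σ : G)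
  map_one' := by
    have h1 := h 1 1
    rw [mul_one, map_one, one_smul] at h1
    have h2 : κ 1 = 0 := by
      have h3 := congrArg (fun t => t - κ 1) h1
      simpa using h3.symm
    rw [h2, zero_v, map_one]
    simp
  map_mul' σ τ := by
    rw [h, add_v, smul_v, map_mul]
    simp [mul_assoc]

theorem thO_ap {Γ : Type} [Group Γ] (φ : Γ →* A) (κ : Γ → MT T hT hTc)
    (h : ∀ σ τ, κ (σ * τ) = κ σ + φ σ • κ τ) (σ : Γ) : thO φ κ h σ = (κ σ).v * (φ σ : G) := rfl

theorem pow_mt {J : Type} {x : J → G} (hxT : ∀ j, x j ∈ T) (N : ℕ)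
    (hN : ∀ j, x j ^ N = 1) (hgen : T = Subgroup.closure {y : G | ∃ j, IsConj (x j) y})
    (hT : T.Normal) (hTc : ∀ s ∈ T, ∀ t ∈ T, s * t = t * s) (y : G) (hy : y ∈ T) : y ^ N = 1 := by
  have key : ∀ y ∈ Subgroup.closure {y : G | ∃ j, IsConj (x j) y}, y ∈ T ∧ y ^ N = 1 := by
    intro y hy
    induction hy using Subgroup.closure_induction with
    | mem y hy =>
      obtain ⟨j, hj⟩ := hy
      obtain ⟨c, rfl⟩ := isConj_iff.1 hj
      exact ⟨hT.conj_mem _ (hxT j) c, by rw [conj_pow, hN j, mul_one, mul_inv_cancel]⟩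
    | one => exact ⟨T.one_mem, one_pow N⟩
    | mul a b _ _ ha hb =>
      refine ⟨T.mul_mem ha.1 hb.1, ?_⟩
      have h1 : Commute a b := hTc a ha.1 b hb.1
      rw [h1.mul_pow, ha.2, hb.2, one_mul]
    | inv a _ ha => exact ⟨T.inv_mem ha.1, by rw [inv_pow, ha.2, inv_one]⟩
  rw [hgen] at hy
  exact (key y hy).2

theorem gen_mt {J : Type} {x : J → G} (hxT : ∀ j, x j ∈ T)
    (hgen : T = Subgroup.closure {y : G | ∃ j, IsConj (x j) y}) (hTA : Subgroup.IsComplement' T A)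
    (hT : T.Normal) (hTc : ∀ s ∈ T, ∀ t ∈ T, s * t = t * s) :
    AddSubgroup.closure {s : MT T hT hTc | ∃ (j : J) (a : A), s = a • (⟨x j, hxT j⟩ : MT T hT hTc)} = ⊤ := by
  have key : ∀ y ∈ Subgroup.closure {y : G | ∃ j, IsConj (x j) y}, ∃ h : y ∈ T,
      (⟨y, h⟩ : MT T hT hTc) ∈
        AddSubgroup.closure {s : MT T hT hTc | ∃ (j : J) (a : A), s = a • (⟨x j, hxT j⟩ : MT T hT hTc)} := by
    intro y hy
    induction hy using Subgroup.closure_induction with
    | mem y hy =>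
      obtain ⟨j, hj⟩ := hy
      obtain ⟨c, rfl⟩ := isConj_iff.1 hj
      refine ⟨hT.conj_mem _ (hxT j) c, AddSubgroup.subset_closure ?_⟩
      obtain ⟨⟨t, a⟩, h⟩ := hTA.2 c
      refine ⟨j, a, MT.ext ?_⟩
      rw [smul_v]
      change (t : G) * (a : G) = c at h
      rw [← h]
      have h1 := hTc t t.2 _ (hT.conj_mem _ (hxT j) (a : G))
      calc (t : G) * a * x j * ((t : G) * a)⁻¹ = (t : G) * (a * x j * (a : G)⁻¹) * (t : G)⁻¹ := by group
        _ = (a * x j * (a : G)⁻¹) * t * (t : G)⁻¹ := by rw [h1]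
        _ = a * x j * (a : G)⁻¹ := by group
    | one => exact ⟨T.one_mem, AddSubgroup.zero_mem _⟩
    | mul a b _ _ ha hb =>
      obtain ⟨h1, h2⟩ := ha
      obtain ⟨h3, h4⟩ := hb
      exact ⟨T.mul_mem h1 h3, AddSubgroup.add_mem _ h2 h4⟩
    | inv a _ ha =>
      obtain ⟨h1, h2⟩ := ha
      exact ⟨T.inv_mem h1, AddSubgroup.neg_mem _ h2⟩
  rw [eq_top_iff]
  rintro ⟨y, hy⟩ -
  rw [hgen] at hy
  exact (key y hy).2

end alg

theorem fib : FIB := by
  intro K _ hTC m ζ hζ G _ _ hG T A hT hTc hTA hco J _ x hxT hxp hc hgen Q S₀ S' hS'S hS₀ hS' C a b hC ha hab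
  -- `m ≠ 0`
  have hm : m ≠ 0 := by
    rintro rfl
    have h1 : FT (1 : Gal(QBar/K) →* Unit) := ⟨⊥, inferInstance, fun _ _ => rfl⟩
    obtain ⟨S'', h2, h3, -⟩ := spx (1 : Gal(QBar/K) →* Unit) h1 S₀ 1
    obtain ⟨v, hv⟩ := Finset.card_eq_one.1 h2
    have h4 : v ∉ S₀ := Finset.disjoint_left.1 h3 (by rw [hv]; exact Finset.mem_singleton_self v)
    refine h4 (hS₀ v ?_)
    rw [Nat.cast_zero]
    exact v.asIdeal.zero_mem
  have hm0 : 0 < m := Nat.pos_of_ne_zero hm
  have hTG : Nat.card T ∣ Nat.card G := Subgroup.card_subgroup_dvd_card T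
  obtain ⟨M, hM⟩ : ∃ M : ℕ, M = ∏ p ∈ (Nat.card T).primeFactors, p := ⟨_, rfl⟩
  have hT0 : Nat.card T ≠ 0 := Nat.card_pos.ne'
  have hMs : Squarefree M := by
    rw [hM]
    refine Finset.squarefree_prod_of_pairwise_isCoprime ?_ fun p hp =>
      (Nat.prime_of_mem_primeFactors hp).squarefree
    intro p hp q hq hne
    exact Nat.coprime_iff_isRelPrime.1 ((Nat.coprime_primes (Nat.prime_of_mem_primeFactors hp)
      (Nat.prime_of_mem_primeFactors hq)).2 hne)
  have hlM : ∀ l : ℕ, l.Prime → l ∣ M → l ∣ Nat.card T := by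
    intro l hl h1
    rw [hM, Prime.dvd_finsetProd_iff hl.prime] at h1
    obtain ⟨p, hp, h2⟩ := h1
    have h3 := (Nat.prime_dvd_prime_iff_eq hl (Nat.prime_of_mem_primeFactors hp)).1 h2
    rw [h3]
    exact Nat.dvd_of_mem_primeFactors hp
  have hMA : Nat.Coprime M (Nat.card A) := by
    rw [hM]
    exact Nat.Coprime.prod_left fun p hp => Nat.Coprime.coprime_dvd_left (Nat.dvd_of_mem_primeFactors hp) hco
  have hxM : ∀ j, x j ^ M = 1 := by
    intro j
    have h1 : orderOf (x j) ∣ Nat.card T := by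
      rw [← Subgroup.orderOf_mk (x j) (hxT j)]
      exact orderOf_dvd_natCard _
    have h2 : orderOf (x j) ∣ M := by
      rw [hM]
      exact Finset.dvd_prod_of_mem _ (Nat.mem_primeFactors.2 ⟨hxp j, h1, hT0⟩)
    exact orderOf_dvd_iff_pow_eq_one.1 h2
  have hlm : ∀ l : ℕ, l.Prime → l ∣ M → l ∣ m := fun l hl h => ((hlM l hl h).trans hTG).trans hG
  have hmem : ∀ l : ℕ, l ∣ m → ∀ v : Pl K, Above l v → ((m : ℕ) : 𝓞 K) ∈ v.asIdeal := by
    rintro l ⟨d, rfl⟩ v hv
    rw [Nat.cast_mul]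
    exact v.asIdeal.mul_mem_right _ hv
  let _ : Fintype A := Fintype.ofFinite A
  have hlam : 1 ≤ C ^ 3 := one_le_pow₀ (by linarith)
  have hTC' : TC K (Module.finrank ℚ K) := ⟨hTC, rfl⟩
  obtain ⟨c, C1, δ, hc0, hC1, hδ, A0, hmain⟩ := H12.KF.fibre_box hTC' A (MT T hT hTc) hMs
    (fun t => MT.ext (by rw [nsmul_v, zero_v]; exact pow_mt hxT M hxM hgen hT hTc t.v t.m)) hMA
    (fun l => ζ ^ (m / l))
    (fun l hl h => hζ.pow hm0 (Nat.div_mul_cancel (hlm l hl h)).symm)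
    J (fun j => (⟨x j, hxT j⟩ : MT T hT hTc)) (fun j => by rw [ord_v]; exact hxp j)
    (fun i j a' h => hc i j (isConj_iff.2 ⟨(a' : G)⁻¹, by
      have h1 : x i = a' * x j * (a' : G)⁻¹ := congrArg MT.v h
      rw [h1]
      group⟩))
    (gen_mt hxT hgen hTA hT hTc) Q S₀ S' hS'S (fun l hl h v hv => hS₀ v (hmem l (hlm l hl h) v hv))
    (fun l hl h v hv hv' => hS' v hv (hmem l (hlm l hl h) v hv')) (C ^ 3) a b hlam ha hab
  refine ⟨c, A0 + 1, C1, δ, 1, hc0, by positivity, by linarith, hδ, le_rfl, ?_⟩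
  intro φ hφ hφs hφS Dr hDr hDu g Z U F hU hFa hFb
  obtain ⟨Xs, hX1, hX2⟩ := hmain φ hφ hφs hφS Dr hDu U F hU (fun j => ⟨hFa j, hFb j⟩)
  refine ⟨Xs.attach.image (fun κ => thO φ κ.1 (hX2 κ.1 κ.2).1), ?_, ?_⟩
  · rw [Finset.card_image_of_injective, Finset.card_attach]
    · refine le_trans ?_ hX1
      refine mul_le_mul_of_nonneg_left ?_ hc0.le
      refine sub_le_sub ?_ ?_
      · refine bfx Q S₀ Dr (fun j => stb A (x j)) φ g Z C F
          (fun j v => ((H12.KF.fo φ Q (⟨x j, hxT j⟩ : MT T hT hTc) v).card : ℝ))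
          (fun _ _ => Nat.cast_nonneg _) fun j v hv => ?_
        unfold rr
        rw [if_neg hv, fo_fxp Q φ hφ v.1 (hDu v.1 v.2 hv) _ (stb A (x j)) fun a' => ?_]
        rw [MT.ext_iff, smul_v]
        rfl
      · have h1 : (1 : ℝ) ≤ nr Dr := one_le_nr Dr
        have h2 : nr Dr ^ A0 ≤ nN Dr ^ ((A0 : ℝ) + 1) := by
          have h3 : nN Dr = nr Dr := rfl
          rw [h3, ← Real.rpow_natCast]
          exact Real.rpow_le_rpow_of_exponent_le h1 (by linarith)
        have h4 : 0 ≤ ∏ j, F j := Finset.prod_nonneg fun j _ =>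
          (Real.rpow_nonneg (by linarith) a).trans (hFa j)
        have h5 : 0 ≤ U ^ (-δ) := Real.rpow_nonneg (by linarith) _
        have h6 : C1 * nr Dr ^ A0 ≤ C1 * nN Dr ^ ((A0 : ℝ) + 1) :=
          mul_le_mul_of_nonneg_left h2 (by linarith)
        exact mul_le_mul_of_nonneg_right (mul_le_mul_of_nonneg_right h6 h4) h5
    · intro κ κ' h
      apply Subtype.ext
      funext σ
      apply MT.ext
      have h1 := DFunLike.congr_fun h σ
      beta_reduce at h1
      rw [thO_ap, thO_ap] at h1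
      exact mul_right_cancel h1
  · intro θ hθ
    rw [Finset.mem_image] at hθ
    obtain ⟨κ, -, rfl⟩ := hθ
    obtain ⟨h1, ⟨E, hE, hE'⟩, h3, f, hf, h4, h5, h6⟩ := hX2 κ.1 κ.2
    obtain ⟨hq, hfd⟩ := bx_mem Q S₀ Dr (fun j => stb A (x j)) φ g Z C F f hf
    refine ⟨?_, _, hq, ?_, ?_⟩
    · intro v hv σ hσ
      rw [thO_ap, h3 v hv σ hσ, zero_v, hφS v hv σ hσ]
      simp
    · intro j v hv
      rw [Finset.mem_subtype] at hv
      exact (hfd j v.1 hv).2
    · refine ⟨⟨E, hE, fun σ hσ => ?_⟩, fun σ => ?_, ?_, ?_⟩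
      · rw [MonoidHom.mem_ker, thO_ap, (hE' σ hσ).1, (hE' σ hσ).2, zero_v]
        simp
      · rw [thO_ap]
        have h7 : (κ.1 σ).v * (φ σ : G) * ((A.subtype.comp φ) σ)⁻¹ = (κ.1 σ).v := by
          rw [MonoidHom.comp_apply, Subgroup.subtype_apply, mul_inv_cancel_right]
        rw [h7]
        exact (κ.1 σ).m
      · intro j v hv
        rw [Finset.mem_subtype] at hv
        obtain ⟨g', hg'⟩ := h6 j v.1 hv
        refine ⟨(g' : G), fun τ hτ => ?_⟩
        have h7 := hg' (uf v.1) (ord_uf v.1) τ hτ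
        rw [thO_ap, h7, nsmul_v, smul_v, ord_v, hDu v.1 v.2 (hfd j v.1 hv).2 τ hτ]
        unfold tx
        rw [conj_pow]
        simp
      · intro v hv
        have hvf : ∀ j, v.1 ∉ f j := fun j hj => hv j (by rw [Finset.mem_subtype]; exact hj)
        by_cases hvD : v.1 ∈ Dr
        · obtain ⟨t, ht⟩ := h5 v.1 v.2 hvD
          refine ⟨t.v⁻¹, T.inv_mem t.m, fun τ hτ => ?_⟩
          rw [thO_ap, ht τ hτ, sub_v, smul_v, MonoidHom.comp_apply, Subgroup.subtype_apply]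
          have h7 := hTc _ (hT.conj_mem _ t.m (φ τ : G)) _ (T.inv_mem t.m)
          rw [h7]
          group
        · refine ⟨1, T.one_mem, fun τ hτ => ?_⟩
          rw [thO_ap, h4 v.1 v.2 hvD hvf τ hτ, zero_v, MonoidHom.comp_apply, Subgroup.subtype_apply]
          simp

end H51.K1
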