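import Pool.Agent.H51.K1.Tam

/-!
# [H51 K1 Srj] The typed homomorphisms are surjective, and `Tm`

`tyT_srj`: `R := range θ`. `R ⊔ T = ⊤` (`φ` is onto `A`, `θ σ (φ σ)⁻¹ ∈ T`, `T ⊔ A = ⊤`). For every `j` there is `v ∈ q j`, so some conjugate
`y = g x_j g⁻¹` is in `R` (`tx_ex`). `T` is commutative: every conjugate of `x_j` is `r y r⁻¹` with `r ∈ R` (write `h = r t`, `t ∈ T`, and
`t` commutes with `y ∈ T`), so it is in `R`. So `T ≤ R` and `R = ⊤`.
`tyT_tm`: outside `S₀` inertia is generated by an element of `C`: at `v ∈ q j` the values are in `zpowers (g x_j g⁻¹)`; at `v ∈ D o` they are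
`t * tx m ζ v o τ * t⁻¹ ∈ zpowers (t o t⁻¹)`; elsewhere trivial. `T` of `Tm`: the union of the `D o` and of the images of the `q j`, all `k v = 1`;
the norms: the sets are pairwise disjoint (`v ∈ q j` is not in `UD D`), so the product is `nN (UD D) * ∏ j, ∏ v ∈ q j, nm v`
(or only `≤`: a product over a union of finite sets of numbers `≥ 1` is at most the product of the products).
-/

set_option autoImplicit false

open scoped NumberField Classical
open IsDedekindDomain H38.ML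

noncomputable section

namespace H51.K1

open H63.MA H38.BB H38.BG H77.PC3 H51.SN H57.SL H36.QA H88.LH

variable {K : IntermediateField ℚ QBar} [NumberField K] {m : ℕ} {ζ : K} {G : Type} [Group G] [Finite G]

private theorem nm_one (v : Pl K) : (1 : ℝ) ≤ nm v := by
  have h : nm v ≠ 0 := by
    unfold nm
    rw [Ne, Ideal.absNorm_eq_zero_iff]
    exact v.ne_bot
  exact_mod_cast Nat.one_le_iff_ne_zero.2 h

private theorem pr_un (s t : Finset (Pl K)) :
    ∏ v ∈ s ∪ t, (nm v : ℝ) ≤ (∏ v ∈ s, (nm v : ℝ)) * ∏ v ∈ t, (nm v : ℝ) := by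
  rw [← Finset.prod_union_inter]
  refine le_mul_of_one_le_right (Finset.prod_nonneg fun v _ => Nat.cast_nonneg _) ?_
  exact Finset.one_le_prod fun v _ => nm_one v

private theorem pr_bi {J : Type} (s : Finset J) (f : J → Finset (Pl K)) :
    ∏ v ∈ s.biUnion f, (nm v : ℝ) ≤ ∏ j ∈ s, ∏ v ∈ f j, (nm v : ℝ) := by
  induction s using Finset.induction_on with
  | empty => simp
  | insert a s ha ih =>
    rw [Finset.biUnion_insert, Finset.prod_insert ha]
    refine le_trans (pr_un _ _) ?_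
    exact mul_le_mul_of_nonneg_left ih (Finset.prod_nonneg fun v _ => Nat.cast_nonneg _)

omit [Finite G] in
private theorem pk_one {C : Set G} {y : G} (hy : y ∈ C) : Pk C 1 y := by
  refine ⟨[y], by simp, ?_, ?_, by simp⟩
  · intro z hz
    rw [List.mem_singleton.1 hz]
    exact hy
  · intro z hz w hw
    rw [List.mem_singleton.1 hz, List.mem_singleton.1 hw]

omit [Finite G] in
private theorem zp_cj {x y : G} (g : G) (h : y ∈ Subgroup.zpowers x) :
    g * y * g⁻¹ ∈ Subgroup.zpowers (g * x * g⁻¹) := by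
  obtain ⟨n, rfl⟩ := Subgroup.mem_zpowers_iff.1 h
  exact Subgroup.mem_zpowers_iff.2 ⟨n, conj_zpow⟩

theorem tyT_srj (Q : DP K QBar) (hζ : IsPrimitiveRoot ζ m) (hG : Nat.card G ∣ m) {S₀ : Finset (Pl K)}
    (hS : ∀ v : Pl K, ((m : ℕ) : 𝓞 K) ∈ v.asIdeal → v ∈ S₀) {T A : Subgroup G} (hT : T.Normal)
    (hTc : ∀ s ∈ T, ∀ t ∈ T, s * t = t * s) (hTA : T ⊔ A = ⊤) {J : Type} {x : J → G}
    (hxT : ∀ j, x j ∈ T) (hx : ∀ j, (orderOf (x j)).Prime)
    (hgen : T = Subgroup.closure {y : G | ∃ j, IsConj (x j) y}) {φ : Gal(QBar/K) →* A}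
    (hφ : Function.Surjective φ) {q : J → Finset (Vx S₀)} (hq : ∀ j, (q j).Nonempty)
    {θ : Gal(QBar/K) →* G} (h : TyT Q m ζ S₀ T x (A.subtype.comp φ) q θ) : Function.Surjective θ := by
  have key : ∀ g : G, ∃ r ∈ θ.range, ∃ t ∈ T, g = r * t := by
    intro g
    have hg : g ∈ T ⊔ A := by
      rw [hTA]
      exact Subgroup.mem_top g
    obtain ⟨t, ht, a, ha, rfl⟩ := (Subgroup.mem_sup_of_normal_left).1 hg
    obtain ⟨σ, hσ⟩ := hφ ⟨a, ha⟩
    have h1 := h.ovr σ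
    have h2 : (A.subtype.comp φ) σ = a := by
      rw [MonoidHom.comp_apply, hσ]
      rfl
    rw [h2] at h1
    refine ⟨θ σ, ⟨σ, rfl⟩, (θ σ)⁻¹ * (t * (θ σ * a⁻¹)⁻¹) * θ σ, ?_, by group⟩
    have h3 := hT.conj_mem _ (T.mul_mem ht (T.inv_mem h1)) (θ σ)⁻¹
    rwa [inv_inv] at h3
  have hyR : ∀ j, ∃ g : G, g * x j * g⁻¹ ∈ θ.range := by
    intro j
    obtain ⟨v, hv⟩ := hq j
    obtain ⟨g, hg⟩ := h.ram j v hv
    obtain ⟨τ, hτ, hτx⟩ := tx_ex Q hζ hG v.1 (fun h' => v.2 (hS v.1 h')) (x j) (hx j)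
    refine ⟨g, τ, ?_⟩
    rw [hg τ hτ, hτx]
  have hTR : T ≤ θ.range := by
    rw [hgen, Subgroup.closure_le]
    rintro y ⟨j, hj⟩
    obtain ⟨h0, rfl⟩ := isConj_iff.1 hj
    obtain ⟨g, hg⟩ := hyR j
    obtain ⟨r, hr, t, ht, e⟩ := key (h0 * g⁻¹)
    have h1 : g * x j * g⁻¹ ∈ T := hT.conj_mem _ (hxT j) g
    have h2 : h0 * x j * h0⁻¹ = r * (g * x j * g⁻¹) * r⁻¹ := by
      have h3 := hTc t ht _ h1
      have h4 : h0 = r * t * g := by
        rw [← e]
        group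
      calc h0 * x j * h0⁻¹ = r * (t * (g * x j * g⁻¹)) * t⁻¹ * r⁻¹ := by
            rw [h4]
            group
        _ = r * (g * x j * g⁻¹) * r⁻¹ := by
            rw [h3]
            group
    show h0 * x j * h0⁻¹ ∈ θ.range
    rw [h2]
    exact θ.range.mul_mem (θ.range.mul_mem hr hg) (θ.range.inv_mem hr)
  intro g
  obtain ⟨r, hr, t, ht, e⟩ := key g
  have h1 : g ∈ θ.range := by
    rw [e]
    exact θ.range.mul_mem hr (hTR ht)
  exact h1

theorem tyT_tm (Q : DP K QBar) {S₀ S' : Finset (Pl K)} {T A : Subgroup G} (hT : T.Normal) {C : Set G}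
    (hC : ∀ y ∈ C, ∀ g : G, g * y * g⁻¹ ∈ C) {J : Type} [Fintype J] {x : J → G} (hx : ∀ j, x j ∈ C)
    {L : Set A} (hL : ∀ o ∈ L, (o : G) ∈ C) {D : A → Finset (Pl K)} {φ : Gal(QBar/K) →* A}
    (hφ : TyA Q m ζ S₀ S' L D φ) {q : J → Finset (Vx S₀)} {θ : Gal(QBar/K) →* G}
    (h : TyT Q m ζ S₀ T x (A.subtype.comp φ) q θ) (Y : ℝ)
    (hY : nN (UD D) * ∏ j, ∏ v ∈ q j, (nm v.1 : ℝ) ≤ Y) : Tm C Q S₀ Y θ := by
  have hUD : ∀ v : Pl K, v ∈ UD D ↔ ∃ o, v ∈ D o := by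
    intro v
    unfold UD
    simp
  refine ⟨UD D ∪ Finset.univ.biUnion (fun j => (q j).image Subtype.val), fun _ => 1, ?_, ?_, ?_, ?_⟩
  · intro v hv
    rcases Finset.mem_union.1 hv with h1 | h1
    · obtain ⟨o, ho⟩ := (hUD v).1 h1
      exact hφ.out o v ho
    · obtain ⟨j, _, hj⟩ := Finset.mem_biUnion.1 h1
      obtain ⟨w, _, rfl⟩ := Finset.mem_image.1 hj
      exact w.2
  · refine le_trans ?_ hY
    simp only [pow_one]
    refine le_trans (pr_un _ _) ?_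
    refine mul_le_mul_of_nonneg_left ?_ (Finset.prod_nonneg fun v _ => Nat.cast_nonneg _)
    refine le_trans (pr_bi _ _) ?_
    refine Finset.prod_le_prod (fun j _ => Finset.prod_nonneg fun v _ => Nat.cast_nonneg _) fun j _ => ?_
    rw [Finset.prod_image (Subtype.val_injective.injOn)]
  · intro v hv
    have hvS : v ∉ S₀ := by
      rcases Finset.mem_union.1 hv with h1 | h1
      · obtain ⟨o, ho⟩ := (hUD v).1 h1
        exact hφ.out o v ho
      · obtain ⟨j, _, hj⟩ := Finset.mem_biUnion.1 h1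
        obtain ⟨w, _, rfl⟩ := Finset.mem_image.1 hj
        exact w.2
    by_cases hj : ∃ j, (⟨v, hvS⟩ : Vx S₀) ∈ q j
    · obtain ⟨j, hj⟩ := hj
      obtain ⟨g, hg⟩ := h.ram j _ hj
      refine ⟨g * x j * g⁻¹, pk_one (hC _ (hx j) g), fun τ hτ => ?_⟩
      rw [hg τ hτ]
      exact zp_cj g (tx_zp v (x j) τ)
    · push Not at hj
      have h1 : v ∈ UD D := by
        rcases Finset.mem_union.1 hv with h1 | h1
        · exact h1
        · exfalso
          obtain ⟨j, _, hj'⟩ := Finset.mem_biUnion.1 h1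
          obtain ⟨w, hw, rfl⟩ := Finset.mem_image.1 hj'
          exact hj j hw
      obtain ⟨o, ho⟩ := (hUD v).1 h1
      have hoL : o ∈ L := by
        by_contra h2
        rw [hφ.sup o h2] at ho
        exact absurd ho (Finset.notMem_empty v)
      obtain ⟨t, ht, hr⟩ := h.unr ⟨v, hvS⟩ hj
      refine ⟨t * (o : G) * t⁻¹, pk_one (hC _ (hL o hoL) t), fun τ hτ => ?_⟩
      rw [hr τ hτ, MonoidHom.comp_apply, hφ.ram o v ho τ hτ]
      refine zp_cj t ?_
      obtain ⟨n, hn⟩ := Subgroup.mem_zpowers_iff.1 (tx_zp (m := m) (ζ := ζ) v o τ)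
      refine Subgroup.mem_zpowers_iff.2 ⟨n, ?_⟩
      rw [← hn]
      rfl
  · intro v hvS hv τ hτ
    have h1 : ∀ j, (⟨v, hvS⟩ : Vx S₀) ∉ q j := by
      intro j hj
      refine hv (Finset.mem_union_right _ (Finset.mem_biUnion.2 ⟨j, Finset.mem_univ j, ?_⟩))
      exact Finset.mem_image.2 ⟨_, hj, rfl⟩
    obtain ⟨t, ht, hr⟩ := h.unr ⟨v, hvS⟩ h1
    rw [hr τ hτ, MonoidHom.comp_apply, hφ.unr v hvS (fun o ho => hv (Finset.mem_union_left _ ((hUD v).2 ⟨o, ho⟩))) τ hτ]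
    simp

end H51.K1
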