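import Pool.Agent.H71.KA.Fin
import Pool.Agent.H71.KA.K1c
import Pool.Agent.H36.FA.Fin
import Pool.Agent.H51.K1.Fib
import Pool.Agent.H51.SN.Fin

/-!
# [H51 K1 Thm] THEOREM K1
-/

set_option autoImplicit false

noncomputable section

namespace H51.K1

open H38.ML.Spec H88.LB

/-- the lower bound for `G` with an abelian normal Hall subgroup `N` of squarefree exponent and `G / N` abelian -/
theorem low_k1 (n : ℕ) (hn : 2 ≤ n) (G : Subgroup (Equiv.Perm (Fin n)))
    (hG : MulAction.IsPretransitive G (Fin n)) (N : Subgroup G) (hN : N.Normal)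
    (hcom : ∀ x ∈ N, ∀ y ∈ N, x * y = y * x) (m : ℕ) (hm : Squarefree m) (hNm : ∀ x ∈ N, x ^ m = 1)
    (hco : Nat.Coprime (Nat.card N) N.index) (hab : commutator G ≤ N) : Low G :=
  H71.KA.k1_low H51.SN.stpf (H71.KA.k1c Pool.Agent.H36.FA.fam fib) n hn G hG N hcom hm hNm hab hco

end H51.K1
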