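import Pool.Agent.H51.K1.Tam

/-!
# [H51 K1 Unq] The types are determined by the homomorphism

`tyA_unq`: if `v ∈ D o` then `φ` is not trivial on inertia at `v` (`tx_ex`), so by `unr` (for `D'`; note `v ∉ S₀`) `v ∈ D' o'` for some
`o'`, and `tx_inj` gives `o = o'`.
`tyT_unq`: if `v ∈ q j` and `v` in no `q' i`: `θ τ = t φ τ t⁻¹ = 1` (`φ` is unramified at `v`, hypothesis `hφ`), but some value is a conjugate
of `x j ≠ 1`. So `v ∈ q' i`, and `tx (g x_j g⁻¹) = tx (g' x_i g'⁻¹)` on inertia (`tx_cj`), so `x_j`, `x_i` are conjugate, `j = i`.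
`tyT_phi`: `θ` determines `φ`: `φ σ` is the component of `θ σ` in `A`.
-/

set_option autoImplicit false

open scoped NumberField Classical
open IsDedekindDomain H38.ML

noncomputable section

namespace H51.K1

open H63.MA H38.BB H38.BG H77.PC3 H51.SN H57.SL H36.QA H88.LH

variable {K : IntermediateField ℚ QBar} [NumberField K] {m : ℕ} {ζ : K}

private theorem not_m {S₀ : Finset (Pl K)} (hS : ∀ v : Pl K, ((m : ℕ) : 𝓞 K) ∈ v.asIdeal → v ∈ S₀) {v : Pl K}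
    (hv : v ∉ S₀) : ((m : ℕ) : 𝓞 K) ∉ v.asIdeal := fun h => hv (hS v h)

private theorem tyA_sub {A : Type} [Group A] [Finite A] (Q : DP K QBar) (hζ : IsPrimitiveRoot ζ m)
    (hA : Nat.card A ∣ m) {S₀ S' : Finset (Pl K)} (hS : ∀ v : Pl K, ((m : ℕ) : 𝓞 K) ∈ v.asIdeal → v ∈ S₀)
    {L : Set A} (hL : ∀ o ∈ L, (orderOf o).Prime) {D D' : A → Finset (Pl K)} {φ : Gal(QBar/K) →* A}
    (h : TyA Q m ζ S₀ S' L D φ) (h' : TyA Q m ζ S₀ S' L D' φ) (o : A) (v : Pl K) (hv : v ∈ D o) : v ∈ D' o := by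
  have hv0 : v ∉ S₀ := h.out o v hv
  have hm := not_m hS hv0
  have hoL : o ∈ L := by
    by_contra hc
    rw [h.sup o hc] at hv
    exact absurd hv (Finset.notMem_empty v)
  have ho := hL o hoL
  have hex : ∃ o', v ∈ D' o' := by
    by_contra hc
    push Not at hc
    obtain ⟨τ, hτ, h1⟩ := tx_ex Q hζ hA v hm o ho
    have h2 := h'.unr v hv0 hc τ hτ
    rw [h.ram o v hv τ hτ, h1] at h2
    rw [h2, orderOf_one] at ho
    exact Nat.not_prime_one ho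
  obtain ⟨o', ho'⟩ := hex
  have ho'L : o' ∈ L := by
    by_contra hc
    rw [h'.sup o' hc] at ho'
    exact absurd ho' (Finset.notMem_empty v)
  have heq : o = o' := tx_inj Q hζ hA v hm o o' ho (hL o' ho'L) fun τ hτ => by
    rw [← h.ram o v hv τ hτ, h'.ram o' v ho' τ hτ]
  rw [heq]
  exact ho'

private theorem tyT_sub {G : Type} [Group G] [Finite G] (Q : DP K QBar) (hζ : IsPrimitiveRoot ζ m)
    (hG : Nat.card G ∣ m) {S₀ Dr : Finset (Pl K)} (hS : ∀ v : Pl K, ((m : ℕ) : 𝓞 K) ∈ v.asIdeal → v ∈ S₀)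
    {T : Subgroup G} {J : Type} {x : J → G} (hx : ∀ j, (orderOf (x j)).Prime)
    (hc : ∀ i j, IsConj (x i) (x j) → i = j) {φ θ : Gal(QBar/K) →* G}
    (hφ : ∀ v, v ∉ S₀ → v ∉ Dr → ∀ τ ∈ (Q.P v).inertia Gal(QBar/K), φ τ = 1)
    {q q' : J → Finset (Vx S₀)} (hq : ∀ j, ∀ v ∈ q j, v.1 ∉ Dr)
    (h : TyT Q m ζ S₀ T x φ q θ) (h' : TyT Q m ζ S₀ T x φ q' θ) (j : J) (v : Vx S₀) (hv : v ∈ q j) : v ∈ q' j := by
  have hm := not_m hS v.2
  have hφ1 := hφ v.1 v.2 (hq j v hv)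
  obtain ⟨g, hg⟩ := h.ram j v hv
  have hex : ∃ i, v ∈ q' i := by
    by_contra hcc
    push Not at hcc
    obtain ⟨t, -, ht⟩ := h'.unr v hcc
    obtain ⟨τ, hτ, h1⟩ := tx_ex Q hζ hG v.1 hm (x j) (hx j)
    have h2 : θ τ = 1 := by rw [ht τ hτ, hφ1 τ hτ, mul_one, mul_inv_cancel]
    rw [hg τ hτ, h1] at h2
    have h3 : x j = 1 := by
      have h4 : x j = g⁻¹ * (g * x j * g⁻¹) * g := by group
      rw [h4, h2]
      group
    have h5 := hx j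
    rw [h3, orderOf_one] at h5
    exact Nat.not_prime_one h5
  obtain ⟨i, hi⟩ := hex
  obtain ⟨g', hg'⟩ := h'.ram i v hi
  have hord : ∀ (a y : G), orderOf (a * y * a⁻¹) = orderOf y := fun a y => by
    rw [← MulAut.conj_apply, MulEquiv.orderOf_eq]
  have heq : g * x j * g⁻¹ = g' * x i * g'⁻¹ := by
    refine tx_inj Q hζ hG v.1 hm _ _ ?_ ?_ fun τ hτ => ?_
    · rw [hord]
      exact hx j
    · rw [hord]
      exact hx i
    · rw [tx_cj, tx_cj, ← hg τ hτ, ← hg' τ hτ]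
  have hcj : IsConj (x j) (x i) := by
    rw [isConj_iff]
    refine ⟨g'⁻¹ * g, ?_⟩
    calc g'⁻¹ * g * x j * (g'⁻¹ * g)⁻¹ = g'⁻¹ * (g * x j * g⁻¹) * g' := by group
      _ = g'⁻¹ * (g' * x i * g'⁻¹) * g' := by rw [heq]
      _ = x i := by group
  rw [hc j i hcj]
  exact hi

theorem tyA_unq {A : Type} [Group A] [Finite A] (Q : DP K QBar) (hζ : IsPrimitiveRoot ζ m)
    (hA : Nat.card A ∣ m) {S₀ S' : Finset (Pl K)} (hS : ∀ v : Pl K, ((m : ℕ) : 𝓞 K) ∈ v.asIdeal → v ∈ S₀)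
    {L : Set A} (hL : ∀ o ∈ L, (orderOf o).Prime) {D D' : A → Finset (Pl K)} {φ : Gal(QBar/K) →* A}
    (h : TyA Q m ζ S₀ S' L D φ) (h' : TyA Q m ζ S₀ S' L D' φ) : D = D' := by
  funext o
  ext v
  exact ⟨tyA_sub Q hζ hA hS hL h h' o v, tyA_sub Q hζ hA hS hL h' h o v⟩

theorem tyT_unq {G : Type} [Group G] [Finite G] (Q : DP K QBar) (hζ : IsPrimitiveRoot ζ m)
    (hG : Nat.card G ∣ m) {S₀ Dr : Finset (Pl K)} (hS : ∀ v : Pl K, ((m : ℕ) : 𝓞 K) ∈ v.asIdeal → v ∈ S₀)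
    {T : Subgroup G} {J : Type} {x : J → G} (hx : ∀ j, (orderOf (x j)).Prime)
    (hc : ∀ i j, IsConj (x i) (x j) → i = j) {φ θ : Gal(QBar/K) →* G}
    (hφ : ∀ v, v ∉ S₀ → v ∉ Dr → ∀ τ ∈ (Q.P v).inertia Gal(QBar/K), φ τ = 1)
    {q q' : J → Finset (Vx S₀)} (hq : ∀ j, ∀ v ∈ q j, v.1 ∉ Dr) (hq' : ∀ j, ∀ v ∈ q' j, v.1 ∉ Dr)
    (h : TyT Q m ζ S₀ T x φ q θ) (h' : TyT Q m ζ S₀ T x φ q' θ) : q = q' := by
  funext j
  ext v
  exact ⟨tyT_sub Q hζ hG hS hx hc hφ hq h h' j v, tyT_sub Q hζ hG hS hx hc hφ hq' h' h j v⟩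

theorem tyT_phi {G : Type} [Group G] (Q : DP K QBar) {S₀ : Finset (Pl K)} {T A : Subgroup G}
    (hTA : T ⊓ A = ⊥) {J : Type} {x : J → G} {φ φ' : Gal(QBar/K) →* A} {θ : Gal(QBar/K) →* G}
    {q q' : J → Finset (Vx S₀)} (h : TyT Q m ζ S₀ T x (A.subtype.comp φ) q θ)
    (h' : TyT Q m ζ S₀ T x (A.subtype.comp φ') q' θ) : φ = φ' := by
  ext σ
  have h1 := h.ovr σ
  have h2 := h'.ovr σ
  have h3 : ((φ σ : A) : G) * ((φ' σ : A) : G)⁻¹ ∈ T := by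
    have h4 := T.mul_mem (T.inv_mem h1) h2
    have h5 : (θ σ * ((A.subtype.comp φ) σ)⁻¹)⁻¹ * (θ σ * ((A.subtype.comp φ') σ)⁻¹)
        = ((φ σ : A) : G) * ((φ' σ : A) : G)⁻¹ := by
      show (θ σ * ((φ σ : A) : G)⁻¹)⁻¹ * (θ σ * ((φ' σ : A) : G)⁻¹) = _
      group
    rwa [h5] at h4
  have h6 : ((φ σ : A) : G) * ((φ' σ : A) : G)⁻¹ ∈ T ⊓ A :=
    ⟨h3, A.mul_mem (φ σ).2 (A.inv_mem (φ' σ).2)⟩
  rw [hTA, Subgroup.mem_bot] at h6
  exact mul_inv_eq_one.1 h6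

end H51.K1
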